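import Pool.Agent.Lib.MP_5591bc_ag.Tw.Defs

/-! Integral bases of the lattice of periods. -/

namespace Pool.Agent.Lib.MP_5591bc_ag.Tw

open F

/-- the periods over any loop in the fibre `E_s × E'_s` are an integral combination of the columns
of `M` -/
def ZB (s : Fin 1 → ℂ) (M : Matrix (Fin 2 × Fin 2) (Fin 2 × Fin 2) ℂ) : Prop :=
  ∀ v : Fin 2 × Fin 2 → ℂ, (∀ a : Fin 2, ∃ x y,
    IsLoopM 2 (fun t z => z * (z - 1) * (z - t 0) / t 0 ^ (a : ℕ)) {s} x y ∧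
      ∀ i : Fin 2, v (a, i) = ∫ u in (0 : ℝ)..1, x u ^ (i : ℕ) * deriv x u / y s u) →
    ∃ m : Fin 2 × Fin 2 → ℤ, v = M.mulVec fun j => m j

end Pool.Agent.Lib.MP_5591bc_ag.Tw
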