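import Pool.Agent.Lib.MP_5591bc_ag.F.Defs
import Pool.Agent.Lib.MP_5591bc_ag.Pl.DefH

/-! Period matrices of the abelian surfaces `E_t × E'_t`, where `E_t : y ^ 2 = x (x - 1) (x - t)`
and `E'_t : t y ^ 2 = x (x - 1) (x - t)`. -/

namespace Pool.Agent.Lib.MP_5591bc_ag.Tw

open Set Topology F

/-- `P` is a branch of the period matrix of `H^1` of `E_t × E'_t` over the connected open set `U`
of parameters `t ≠ 0, 1`: it is invertible and, near every point of `U`, its `j`-th column consists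
of the integrals of `x ^ i dx / y` (`i = 0, 1`) on the factor `a` (`t ^ a y ^ 2 = x (x-1) (x-t)`,
`a = 0, 1`) over one continuous family of loops in the product. -/
def IsPer2 (U : Set (Fin 1 → ℂ))
    (P : (Fin 1 → ℂ) → Matrix (Fin 2 × Fin 2) (Fin 2 × Fin 2) ℂ) : Prop :=
  IsOpen U ∧ IsPreconnected U ∧ ∀ s ∈ U, s 0 ≠ 0 ∧ s 0 ≠ 1 ∧ (P s).det ≠ 0 ∧ ∀ j, ∃ V ∈ 𝓝 s,
    ∀ a : Fin 2, ∃ x y, IsLoopM 2 (fun t z => z * (z - 1) * (z - t 0) / t 0 ^ (a : ℕ)) V x y ∧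
      ∀ t ∈ V, ∀ i : Fin 2,
        P t (a, i) j = ∫ u in (0 : ℝ)..1, x u ^ (i : ℕ) * deriv x u / y t u

/-- the smallest closed subvariety defined over the algebraic numbers that contains `A` -/
def Cl {ι : Type*} (A : Set (ι → ℂ)) : Set (ι → ℂ) :=
  {z | ∀ F : MvPolynomial ι (algebraicClosure ℚ ℂ),
    (∀ a ∈ A, MvPolynomial.aeval a F = 0) → MvPolynomial.aeval z F = 0}

/-- coordinates of the point `(t, g)` of `S × GL_n` -/
def pt {σ ν : Type*} (t : σ → ℂ) (g : Matrix ν ν ℂ) : σ ⊕ ν × ν → ℂ :=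
  Sum.elim t fun a => g a.1 a.2

/-- the periods of the two holomorphic forms -/
def hol {ν : Type*} (M : Matrix (Fin 2 × Fin 2) ν ℂ) : Matrix (Fin 2) ν ℂ :=
  M.submatrix (fun a => (a, 0)) id

end Pool.Agent.Lib.MP_5591bc_ag.Tw
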