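import Pool.Agent.Lib.MP_5591bc_ag.Tw.Mt4

/-! From the Legendre family to the product. -/

namespace Pool.Agent.Lib.MP_5591bc_ag.Tw

open Matrix Filter Topology Metric M F A Pl
open scoped Kronecker

noncomputable section

variable {U : Set (Fin 1 → ℂ)} {P : (Fin 1 → ℂ) → Matrix (Fin 2 × Fin 2) (Fin 2 × Fin 2) ℂ}
  {s t : Fin 1 → ℂ} {r : ℝ} {Q : (Fin 1 → ℂ) → Matrix (Fin 2) (Fin 2) ℂ} {w : (Fin 1 → ℂ) → ℂ}
  {A : Matrix (Fin 2 × Fin 2) (Fin 2 × Fin 2) ℚ} {M g : Matrix (Fin 2) (Fin 2) ℂ} {v : ℂ}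

/-- `mtg_mul` in both directions, `mt_sub`, `mt_sup` -/
theorem hodge2 (h : Loc2 P s r Q w A) (hR : ∀ t ∈ ball s r, RI (Q t))
    (hall : ∀ g : Matrix (Fin 2) (Fin 2) ℂ, g.det ≠ 0 → g ∈ MTG (row0 (Q s))) :
    HodgeGen (fun t => hol (P t)) s := by
  have cm : ∀ X Y : Matrix (Fin 2 × Fin 2) (Fin 2 × Fin 2) ℚ, qc (X * Y) = qc X * qc Y :=
    fun X Y => Matrix.map_mul (f := Rat.castHom ℂ)
  have c1 : qc (1 : Matrix (Fin 2 × Fin 2) (Fin 2 × Fin 2) ℚ) = 1 :=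
    Matrix.map_one _ Rat.cast_zero Rat.cast_one
  have A0 := h.2.2.2.1
  have e1 : qc A⁻¹ * qc A = 1 := by rw [← cm, nonsing_inv_mul _ A0.isUnit, c1]
  have e2 : qc A * qc A⁻¹ = 1 := by rw [← cm, mul_nonsing_inv _ A0.isUnit, c1]
  have hm : ∀ t ∈ ball s r, hol (P t) = hol (tw (w t) (Q t)) * qc A := fun t ht => by
    rw [(h.2.2.2.2 t ht).2.2.2]
    rfl
  filter_upwards [ball_mem_nhds s h.1] with t ht X hX
  obtain ⟨t0, -, sq, -⟩ := h.2.2.2.2 t ht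
  have w0 : w t ≠ 0 := fun e => t0 (by rw [← sq, e, zero_pow two_ne_zero])
  have k := mtg_mul (γ := A⁻¹) (isUnit_nonsing_inv_det _ A0.isUnit).ne_zero hX
  rw [hm t ht, Matrix.mul_assoc (hol _), e2, Matrix.mul_one,
    nonsing_inv_nonsing_inv _ A0.isUnit] at k
  obtain ⟨g, g0, e⟩ := mt_sub w0 (hR t ht) k
  have k2 := mtg_mul A0 (mt_sup (v := w s) (hall g g0))
  rw [← e, ← hm s (mem_ball_self h.1), ← Matrix.mul_assoc, ← Matrix.mul_assoc, e1, Matrix.one_mul,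
    Matrix.mul_assoc, e1, Matrix.mul_one] at k2
  exact k2

theorem iso2 (h : Loc2 P s r Q w A) (hI : Iso (fun t => row0 (Q t)) s) :
    Iso (fun t => hol (P t)) s := by
  have A0 := h.2.2.2.1
  have e2 : qc A * qc A⁻¹ = 1 := by
    have cm : qc (A * A⁻¹) = qc A * qc A⁻¹ := Matrix.map_mul (f := Rat.castHom ℂ)
    rw [← cm, mul_nonsing_inv _ A0.isUnit]
    exact Matrix.map_one _ Rat.cast_zero Rat.cast_one
  have hm : ∀ t ∈ ball s r, hol (P t) * qc A⁻¹ = hol (tw (w t) (Q t)) := fun t ht => by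
    rw [(h.2.2.2.2 t ht).2.2.2]
    change hol (tw (w t) (Q t)) * qc A * _ = _
    rw [Matrix.mul_assoc, e2, Matrix.mul_one]
  filter_upwards [hI, mem_nhdsWithin_of_mem_nhds (ball_mem_nhds s h.1)] with t h1 ht ⟨B, hB⟩
  have k : hol (tw (w t) (Q t)) = B * hol (tw (w s) (Q s)) := by
    rw [← hm t ht, ← hm s (mem_ball_self h.1), ← Matrix.mul_assoc, ← hB]
  refine h1 ⟨of fun _ _ => B 0 0, Matrix.ext fun i j => ?_⟩
  simpa [hol, tw, row0, mul_apply] using congrFun (congrFun k 0) (0, j)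

end

end Pool.Agent.Lib.MP_5591bc_ag.Tw
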