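import Pool.Agent.Lib.MP_5591bc_ag.Tw.Set

/-! The kit on the Legendre family. -/

namespace Pool.Agent.Lib.MP_5591bc_ag.Tw

open Matrix Filter Topology Metric M F A Pl
open scoped Kronecker

noncomputable section

variable {U : Set (Fin 1 → ℂ)} {P : (Fin 1 → ℂ) → Matrix (Fin 2 × Fin 2) (Fin 2 × Fin 2) ℂ}
  {s t : Fin 1 → ℂ} {r : ℝ} {Q : (Fin 1 → ℂ) → Matrix (Fin 2) (Fin 2) ℂ} {w : (Fin 1 → ℂ) → ℂ}
  {A : Matrix (Fin 2 × Fin 2) (Fin 2 × Fin 2) ℚ} {M g : Matrix (Fin 2) (Fin 2) ℂ} {v : ℂ}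

/-- as in the proof of `hyp_gen`: `fam_fm2`, `lam_ex`, `pol_fm`, `per_fund`, `iso_fam` -/
theorem leg_pol (ho : IsOpen U) (hc : IsPreconnected U) (hQ : IsPerM leg U Q) (hs : s ∈ U) :
    ∃ (T : MvPolynomial (Fin 1) ℚ) (W : Fin 1 → Matrix (Fin 2) (Fin 2) (MvPolynomial (Fin 1) ℚ))
      (J : Matrix (Fin 2) (Fin 2) ℝ), FundM T W U Q ∧ Pol T U Q (fun _ : Fin 1 => (0 : Fin 2)) J ∧
      ∀ t : Fin 1 → ℂ, t 0 ≠ 0 → t 0 ≠ 1 → MvPolynomial.aeval t T ≠ 0 ∧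
        (t ∈ U → Iso (fun z => row0 (Q z)) t) := by
  have hd : f2.natDegree + Fintype.card (Fin 1) = 2 + 1 := by rw [f2_deg, Fintype.card_fin]
  obtain ⟨T, W, h, -, hT⟩ := fam_fm2 (σ := Fin 1) f2_sep hd
  have eD : ∀ t : Fin 1 → ℂ, MvPolynomial.eval t (MvPolynomial.map (algebraMap ℚ ℂ) T) =
      MvPolynomial.aeval t T := fun t => by rw [MvPolynomial.eval_map, MvPolynomial.aeval_def]
  have e : ev (fam (Fin 1) f2) = leg := funext₂ fun t z => ev_fam f2 t z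
  have ev : Even 2 := even_two
  obtain ⟨L, hB⟩ := lam_ex h ev (c := f2.leadingCoeff) (by
    rw [← hd, ← (fam_deg f2_sep.ne_zero).1, ← (fam_deg f2_sep.ne_zero).2,
      Polynomial.leadingCoeff]) fun p p1 p2 => rb_ex p1 p2 ev
  rw [← e] at hQ
  have hr : ∀ i : Fin 1, (((fun _ : Fin 1 => (0 : Fin 2)) i : Fin 2) : ℕ) = i := fun i => by
    simp [Subsingleton.elim i 0]
  obtain ⟨J, hJ⟩ := pol_fm (g := 1) h (fun t ht => eD t ▸ ht) rfl hr hB ho hc hQ hs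
  refine ⟨T, W, _, per_fund hQ h.pf, hJ, fun t t0 t1 => ?_⟩
  have i1 : Function.Injective t := Function.injective_of_subsingleton t
  have i2 : ∀ l, Polynomial.aeval (t l) f2 ≠ 0 := fun l => by
    rw [Subsingleton.elim l 0]
    exact f2_ne t0 t1
  have k := (hT t).2 ⟨i1, i2⟩
  exact ⟨k, fun ht => iso_fam (g := 1) h f2_sep f2_deg.ge rfl hr (per_fund hQ h.pf) ht
    (eD t ▸ k) i1 i2⟩

/-- from `Rie J (row0 (Q t))` -/
theorem leg_ri (ho : IsOpen U) (hc : IsPreconnected U) (hQ : IsPerM leg U Q) (ht : t ∈ U)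
    (t0 : t 0 ≠ 0) (t1 : t 0 ≠ 1) : RI (Q t) := by
  obtain ⟨T, W, J, -, hJ, h⟩ := leg_pol ho hc hQ ht
  have k := open scoped ComplexOrder in
    (Complex.lt_def.1 (((hJ.2.2 U Q .base t ht).1 (h t t0 t1).1).2.diag_pos (i := 0))).1
  have j0 : J 0 0 = 0 := by
    have : J 0 0 = -J 0 0 := congrFun (congrFun hJ.1 0) 0
    linarith
  have j1 : J 1 1 = 0 := by
    have : J 1 1 = -J 1 1 := congrFun (congrFun hJ.1 1) 1
    linarith
  have j2 : J 1 0 = -J 0 1 := congrFun (congrFun hJ.1 0) 1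
  intro c
  simp [Matrix.mul_apply, Fin.sum_univ_two, j0, j1, j2] at k c
  have : J 0 1 * (-((Q t 0 0).re * (Q t 0 1).im) + (Q t 0 0).im * (Q t 0 1).re) = 0 := by
    rw [c, mul_zero]
  nlinarith

end

end Pool.Agent.Lib.MP_5591bc_ag.Tw
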