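import Pool.Agent.Lib.MP_5591bc_ag.Tw.Loc
import Pool.Agent.Lib.MP_5591bc_ag.Tw.Leg
import Pool.Agent.Lib.MP_5591bc_ag.Tw.Hg

/-! The Hodge locus of the twisted product is dense. -/

namespace Pool.Agent.Lib.MP_5591bc_ag.Tw

open Matrix Filter Topology Metric M F A Pl
open scoped Kronecker

noncomputable section

variable {U : Set (Fin 1 → ℂ)} {P : (Fin 1 → ℂ) → Matrix (Fin 2 × Fin 2) (Fin 2 × Fin 2) ℂ}
  {s t : Fin 1 → ℂ} {r : ℝ} {Q : (Fin 1 → ℂ) → Matrix (Fin 2) (Fin 2) ℂ} {w : (Fin 1 → ℂ) → ℂ}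
  {A : Matrix (Fin 2 × Fin 2) (Fin 2 × Fin 2) ℚ} {M g : Matrix (Fin 2) (Fin 2) ℂ} {v : ℂ}

/-- the centraliser of a rational matrix -/
lemma den_cen {ν : Type*} [Fintype ν] [DecidableEq ν] (N : Matrix ν ν ℚ) :
    QGrp {a : Matrix ν ν ℂ | a.det ≠ 0 ∧ a * qc N = qc N * a} := by
  refine ⟨⟨Set.range fun x : ν × ν => (mvPolynomialX ν ν ℚ * N.map MvPolynomial.C -
    N.map MvPolynomial.C * mvPolynomialX ν ν ℚ : Matrix ν ν (MvPolynomial (ν × ν) ℚ)) x.1 x.2,
    Set.ext fun a => ?_⟩, by simp, fun a ha b hb => ⟨by simp [ha.1, hb.1], ?_⟩⟩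
  · simp only [Set.mem_ofPred_eq, Set.forall_mem_range, ← Matrix.ext_iff, Prod.forall]
    refine and_congr_right fun _ => forall₂_congr fun i j => ?_
    simp [Matrix.mul_apply, mvPolynomialX, sub_eq_zero]
  · have : b⁻¹ * qc N = qc N * b⁻¹ := by
      rw [← mul_one (b⁻¹ * qc N), ← mul_nonsing_inv b hb.1.isUnit, mul_assoc, ← mul_assoc (qc N),
        ← hb.2, ← mul_assoc, ← mul_assoc, nonsing_inv_mul b hb.1.isUnit, one_mul]
    rw [mul_assoc, this, ← mul_assoc, ha.2, mul_assoc]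

lemma den_ri (h : RI M) : M 0 0 * star (M 0 1) - M 0 1 * star (M 0 0) ≠ 0 := fun e => h (by
  have := congrArg Complex.im e
  simp at this ⊢
  linarith)

/-- complex multiplication: the Mumford-Tate group centralises a rational matrix -/
lemma den_cm (v0 : v ≠ 0) (h : RI M) {p q : ℚ} (e : M 0 1 = (p + q * Complex.I) * M 0 0)
    (hg : (1 : Matrix (Fin 2) (Fin 2) ℂ) ⊗ₖ g ∈ MTG (hol (tw v M))) :
    g 0 1 = -(p ^ 2 + q ^ 2) * g 1 0 ∧ g 1 1 = g 0 0 + 2 * p * g 1 0 := by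
  obtain ⟨d, d1⟩ : ∃ d : ℂ, d * (M 0 0 * star (M 0 1) - M 0 1 * star (M 0 0)) = 1 :=
    ⟨_, inv_mul_cancel₀ (den_ri h)⟩
  have e' : star (M 0 1) = (p - q * Complex.I) * star (M 0 0) := by
    rw [e]
    simp [sub_eq_add_neg]
  have key : ∀ g : Matrix (Fin 2) (Fin 2) ℂ, (1 : Matrix (Fin 2) (Fin 2) ℂ) ⊗ₖ g *
      qc ((1 : Matrix (Fin 2) (Fin 2) ℚ) ⊗ₖ !![0, -(p ^ 2 + q ^ 2); 1, 2 * p]) =
      qc ((1 : Matrix (Fin 2) (Fin 2) ℚ) ⊗ₖ !![0, -(p ^ 2 + q ^ 2); 1, 2 * p]) *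
        (1 : Matrix (Fin 2) (Fin 2) ℂ) ⊗ₖ g ↔
      g 0 1 = -(p ^ 2 + q ^ 2) * g 1 0 ∧ g 1 1 = g 0 0 + 2 * p * g 1 0 := fun g => by
    refine ⟨fun k => ⟨?_, ?_⟩, fun ⟨k1, k2⟩ => ?_⟩
    · simpa [Matrix.mul_apply, Fintype.sum_prod_type] using congrFun (congrFun k (0, 0)) (0, 0)
    · simpa [Matrix.mul_apply, Fintype.sum_prod_type] using congrFun (congrFun k (0, 1)) (0, 0)
    · ext ⟨a, i⟩ ⟨b, j⟩
      fin_cases a <;> fin_cases b <;> fin_cases i <;> fin_cases j <;>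
        simp [Matrix.mul_apply, Fintype.sum_prod_type, k1, k2] <;> ring
  refine (key g).1 (hg _ ⟨den_cen _, fun z k z0 k1 k2 => ?_⟩).2
  obtain ⟨x, x0, rfl⟩ := mt_sub v0 h (a := k) fun G hG => hG.2 z k z0 k1 k2
  refine ⟨by simpa [det_kronecker] using x0, (key x).2 ?_⟩
  have a0 := congrFun (congrFun k1 0) (0, 0)
  have a1 := congrFun (congrFun k1 0) (0, 1)
  have b0 := congrFun (congrFun k2 0) (0, 0)
  have b1 := congrFun (congrFun k2 0) (0, 1)
  simp [Matrix.mul_apply, Fintype.sum_prod_type, hol, tw, -Complex.star_def, -RCLike.star_def]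
    at a0 a1 b0 b1
  have u0 : M 0 0 ≠ 0 := fun c => den_ri h (by rw [e, c]; simp)
  have q0 : (q : ℂ) ≠ 0 := fun c => den_ri h (by rw [e', e, c]; ring)
  rw [e] at a0 a1
  rw [e'] at b0 b1
  have u1 : star (M 0 0) ≠ 0 := star_ne_zero.2 u0
  have c0 : x 0 0 + (p + q * Complex.I) * x 1 0 = z :=
    mul_left_cancel₀ u0 (by linear_combination a0)
  have c1 : x 0 1 + (p + q * Complex.I) * x 1 1 = z * (p + q * Complex.I) :=
    mul_left_cancel₀ u0 (by linear_combination a1)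
  have c2 : x 0 0 + (p - q * Complex.I) * x 1 0 = star z :=
    mul_left_cancel₀ u1 (by linear_combination b0)
  have c3 : x 0 1 + (p - q * Complex.I) * x 1 1 = star z * (p - q * Complex.I) :=
    mul_left_cancel₀ u1 (by linear_combination b1)
  have c4 : x 1 1 = x 0 0 + 2 * p * x 1 0 :=
    mul_left_cancel₀ (mul_ne_zero (two_ne_zero.symm.symm) (mul_ne_zero q0 Complex.I_ne_zero)) (by
      linear_combination c1 - c3 - (p + q * Complex.I) * c0 + (p - q * Complex.I) * c2)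
  refine ⟨?_, c4⟩
  linear_combination c1 - (p + q * Complex.I) * c0 - (p + q * Complex.I) * c4 +
    q ^ 2 * x 1 0 * Complex.I_mul_I

/-- a point whose period ratio lies in the Gaussian field is in the Hodge locus -/
lemma den_not (h : Loc2 P s r Q w A) (ht : t ∈ ball s r) {p q : ℚ}
    (e : Q t 0 1 = (p + q * Complex.I) * Q t 0 0) : ¬ HodgeGen (fun t => hol (P t)) t := by
  intro hg
  have c := (convex_ball s r).isPreconnected
  have R := fun t ht => leg_ri isOpen_ball c h.2.1 ht (h.2.2.2.2 t ht).1 (h.2.2.2.2 t ht).2.1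
  obtain ⟨T, W, J, hF, -, k⟩ := leg_pol isOpen_ball c h.2.1 ht
  have hI := (k t (h.2.2.2.2 t ht).1 (h.2.2.2.2 t ht).2.1).2 ht
  have cm : ∀ X Y : Matrix (Fin 2 × Fin 2) (Fin 2 × Fin 2) ℚ, qc (X * Y) = qc X * qc Y :=
    fun X Y => Matrix.map_mul (f := Rat.castHom ℂ)
  have c1 : qc (1 : Matrix (Fin 2 × Fin 2) (Fin 2 × Fin 2) ℚ) = 1 :=
    Matrix.map_one _ Rat.cast_zero Rat.cast_one
  have A0 := h.2.2.2.1
  have e2 : qc A * qc A⁻¹ = 1 := by rw [← cm, mul_nonsing_inv _ A0.isUnit, c1]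
  have hm : ∀ t ∈ ball s r, hol (P t) = hol (tw (w t) (Q t)) * qc A := fun t ht => by
    rw [(h.2.2.2.2 t ht).2.2.2]
    rfl
  obtain ⟨t0, -, sq, -⟩ := h.2.2.2.2 t ht
  have w0 : w t ≠ 0 := fun e => t0 (by rw [← sq, e, zero_pow two_ne_zero])
  have u0 : Q t 0 0 ≠ 0 := fun c => den_ri (R t ht) (by rw [e, c]; simp)
  have ne : ∀ᶠ z in 𝓝 t, Q z 0 1 - (p - q * Complex.I) * Q z 0 0 ≠ 0 := by
    refine ContinuousAt.eventually_ne (((hF t ht).2 0 1).1.continuousAt.sub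
      (continuousAt_const.mul ((hF t ht).2 0 0).1.continuousAt)) fun c => den_ri (R t ht) ?_
    have q0 : (q : ℂ) = 0 := by
      have : 2 * Complex.I * Q t 0 0 * q = 0 := by linear_combination c - e
      simpa [u0] using this
    rw [e, q0]
    simp
    ring
  obtain ⟨z, h1, ⟨h2, h3⟩, h4⟩ := (hI.and (((hg.and ne).and (isOpen_ball.mem_nhds ht)).filter_mono
    nhdsWithin_le_nhds)).exists
  obtain ⟨d, d1⟩ : ∃ d : ℂ, d * (Q z 0 0 * star (Q z 0 1) - Q z 0 1 * star (Q z 0 0)) = 1 :=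
    ⟨_, inv_mul_cancel₀ (den_ri (R z h4))⟩
  have d0 : d * Complex.I ≠ 0 := mul_ne_zero (left_ne_zero_of_mul_eq_one d1) Complex.I_ne_zero
  have m : (d * Complex.I) • !![Q z 0 0 * star (Q z 0 1) + star (Q z 0 0) * Q z 0 1,
      2 * Q z 0 1 * star (Q z 0 1); -2 * Q z 0 0 * star (Q z 0 0),
      -(Q z 0 0 * star (Q z 0 1) + star (Q z 0 0) * Q z 0 1)] ∈ MTG (row0 (Q z)) := by
    refine fun G hG => hG.2 Complex.I _ Complex.I_ne_zero ?_ ?_
    · ext i j
      fin_cases j <;> simp [row0, Matrix.mul_apply, -Complex.star_def, -RCLike.star_def]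
      · linear_combination Complex.I * Q z 0 0 * d1
      · linear_combination Complex.I * Q z 0 1 * d1
    · rw [show star Complex.I = -Complex.I from Complex.conj_I]
      ext i j
      fin_cases j <;> simp [row0, Matrix.mul_apply, -Complex.star_def, -RCLike.star_def]
      · linear_combination -Complex.I * star (Q z 0 0) * d1
      · linear_combination -Complex.I * star (Q z 0 1) * d1
  have m1 := mtg_mul A0 (mt_sup (v := w z) m)
  rw [← hm z h4] at m1
  have m2 := mtg_mul (Ω := hol (P t)) (γ := A⁻¹) (isUnit_nonsing_inv_det _ A0.isUnit).ne_zero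
    (h2 m1)
  rw [hm t ht, Matrix.mul_assoc (hol _), e2, Matrix.mul_one, nonsing_inv_nonsing_inv _ A0.isUnit,
    ← mul_assoc, ← mul_assoc, e2, one_mul, mul_assoc, e2, mul_one] at m2
  obtain ⟨a1, a2⟩ := den_cm w0 (R t ht) e m2
  simp only [Matrix.smul_apply, of_apply, cons_val', cons_val_zero, cons_val_one, cons_val_fin_one,
    smul_eq_mul] at a1 a2
  have z0 : star (Q z 0 0) ≠ 0 := fun c => den_ri (R z h4) (by rw [c, star_eq_zero.1 c]; simp)
  have a3 : (Q z 0 1 - (p + q * Complex.I) * Q z 0 0) *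
      (Q z 0 1 - (p - q * Complex.I) * Q z 0 0) = 0 :=
    mul_left_cancel₀ (mul_ne_zero two_ne_zero (mul_ne_zero d0 z0)) (by
      linear_combination -Q z 0 0 * a1 - Q z 0 1 * a2 -
        2 * (d * Complex.I) * star (Q z 0 0) * q ^ 2 * Q z 0 0 ^ 2 * Complex.I_mul_I)
  have a4 := sub_eq_zero.1 ((mul_eq_zero.1 a3).resolve_right h3)
  refine h1 ⟨of fun _ _ => Q z 0 0 / Q t 0 0, Matrix.ext fun i j => ?_⟩
  fin_cases j <;> simp [row0, Matrix.mul_apply, a4, e] <;> field_simp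

/-- the Hodge locus is dense -/
theorem tw_den (h : IsPer2 U P) (hs : s ∈ U) :
    ∃ᶠ t in 𝓝 s, ¬ HodgeGen (fun t => hol (P t)) t := by
  obtain ⟨r, Q, w, A, -, k⟩ := loc2 h hs
  have m := mem_ball_self (x := s) k.1
  have c := (convex_ball s r).isPreconnected
  have u0 : ∀ t ∈ ball s r, Q t 0 0 ≠ 0 := fun t ht e => den_ri
    (leg_ri isOpen_ball c k.2.1 ht (k.2.2.2.2 t ht).1 (k.2.2.2.2 t ht).2.1) (by rw [e]; simp)
  obtain ⟨T, W, J, hF, -, l⟩ := leg_pol isOpen_ball c k.2.1 m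
  have hI := (l s (k.2.2.2.2 s m).1 (k.2.2.2.2 s m).2.1).2 m
  have ei : ∀ t : Fin 1 → ℂ, (fun _ => t 0) = t := fun t => funext fun i => by
    rw [Subsingleton.elim i 0]
  have ai : AnalyticAt ℂ (fun z : ℂ => fun _ : Fin 1 => z) (s 0) :=
    AnalyticAt.pi fun _ => analyticAt_id
  have an : ∀ j, AnalyticAt ℂ (fun z : ℂ => Q (fun _ => z) 0 j) (s 0) := fun j =>
    AnalyticAt.comp (g := fun t => Q t 0 j) (by rw [ei]; exact ((hF s m).2 0 j).1) ai
  rcases ((an 1).div (an 0) (by rw [ei]; exact u0 s m)).eventually_constant_or_nhds_le_map_nhds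
    with e | e
  · obtain ⟨t, h1, h2, h3⟩ := (hI.and (((((continuous_apply 0).tendsto s).eventually e).and
      (ball_mem_nhds s k.1)).filter_mono nhdsWithin_le_nhds)).exists
    simp only [Pi.div_apply, ei] at h2
    have a := u0 s m
    have b := u0 t h3
    refine (h1 ⟨of fun _ _ => Q t 0 0 / Q s 0 0, Matrix.ext fun i j => ?_⟩).elim
    fin_cases j <;> simp [row0, Matrix.mul_apply] <;> field_simp
    field_simp at h2
    linear_combination h2
  · have d : DenseRange fun x : ℚ × ℚ => (x.1 + x.2 * Complex.I : ℂ) := by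
      have := (Function.Surjective.denseRange (f := fun x : ℝ × ℝ => (x.1 + x.2 * Complex.I : ℂ))
        fun z => ⟨(z.re, z.im), Complex.re_add_im z⟩).comp
        (Rat.denseRange_cast.prodMap Rat.denseRange_cast) (by fun_prop)
      convert this using 2
      simp
    have f1 := frequently_map.1 ((mem_closure_iff_frequently.1 (d _)).filter_mono e)
    have f2 : Tendsto (fun z : ℂ => fun _ : Fin 1 => z) (𝓝 (s 0)) (𝓝 s) := by
      simpa only [ContinuousAt, ei] using ai.continuousAt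
    refine f2.frequently ((f1.and_eventually (f2.eventually (ball_mem_nhds s k.1))).mono ?_)
    rintro z ⟨⟨⟨p, q⟩, e⟩, hz⟩
    refine den_not k hz (p := p) (q := q) ?_
    rw [show (p + q * Complex.I : ℂ) = _ from e, Pi.div_apply, div_mul_cancel₀ _ (u0 _ hz)]

end

end Pool.Agent.Lib.MP_5591bc_ag.Tw
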