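import Pool.Agent.Lib.MP_5591bc_ag.Tw.Set

/-! Existence of period matrices of the product. -/

namespace Pool.Agent.Lib.MP_5591bc_ag.Tw

open Matrix Filter Topology Metric M F A Pl
open scoped Kronecker

noncomputable section

variable {U : Set (Fin 1 → ℂ)} {P : (Fin 1 → ℂ) → Matrix (Fin 2 × Fin 2) (Fin 2 × Fin 2) ℂ}
  {s t : Fin 1 → ℂ} {r : ℝ} {Q : (Fin 1 → ℂ) → Matrix (Fin 2) (Fin 2) ℂ} {w : (Fin 1 → ℂ) → ℂ}
  {A : Matrix (Fin 2 × Fin 2) (Fin 2 × Fin 2) ℚ} {M g : Matrix (Fin 2) (Fin 2) ℂ} {v : ℂ}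

theorem ex_sq {X : Type*} [TopologicalSpace X] {f : X → ℂ} (hf : Continuous f) {s : X}
    (h0 : f s ≠ 0) : ∃ V ∈ 𝓝 s, ∃ w : X → ℂ, ContinuousOn w V ∧ ∀ t ∈ V, w t ^ 2 = f t := by
  obtain ⟨c, hc⟩ := IsAlgClosed.exists_pow_nat_eq (f s) two_pos
  have k : Continuous fun t => f t / f s := hf.div_const _
  refine ⟨{t | f t / f s ∈ Complex.slitPlane}, (Complex.isOpen_slitPlane.preimage k).mem_nhds
    (by simp [div_self h0]), fun t => c * (f t / f s) ^ (((2 : ℕ) : ℂ)⁻¹),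
    continuousOn_const.mul (k.continuousOn.cpow continuousOn_const fun t ht => ht), fun t _ => ?_⟩
  rw [mul_pow, Complex.cpow_nat_inv_pow _ two_ne_zero, hc, mul_div_cancel₀ _ h0]

/-- `w t = w₀ * (t 0 / s 0) ^ (1 / 2)` on a small ball -/
theorem sq_ex (h0 : s 0 ≠ 0) (h1 : s 0 ≠ 1) : ∃ (r : ℝ) (w : (Fin 1 → ℂ) → ℂ), 0 < r ∧
    ContinuousOn w (ball s r) ∧ ∀ t ∈ ball s r, t 0 ≠ 0 ∧ t 0 ≠ 1 ∧ w t ^ 2 = t 0 := by
  have c : Continuous fun t : Fin 1 → ℂ => t 0 := continuous_apply 0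
  obtain ⟨V, hV, w, w1, w2⟩ := ex_sq c h0
  obtain ⟨r, r0, hr⟩ := Metric.mem_nhds_iff.1 (inter_mem hV
    ((c.continuousAt.eventually_ne h0).and (c.continuousAt.eventually_ne h1)))
  exact ⟨r, w, r0, w1.mono fun t ht => (hr ht).1, fun t ht =>
    ⟨(hr ht).2.1, (hr ht).2.2, w2 t (hr ht).1⟩⟩

theorem ex_loop {V V' : Set (Fin 1 → ℂ)} {x : ℝ → ℂ} {y : (Fin 1 → ℂ) → ℝ → ℂ}
    (h : IsLoopM 2 leg V x y) (hV : V' ⊆ V) (w1 : ContinuousOn w V')
    (w2 : ∀ t ∈ V', t 0 ≠ 0 ∧ w t ^ 2 = t 0) (a : ℕ) :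
    IsLoopM 2 (fun t z => z * (z - 1) * (z - t 0) / t 0 ^ a) V' x
      fun t u => y t u / w t ^ a := by
  have w0 : ∀ t ∈ V', w t ≠ 0 := fun t ht e =>
    (w2 t ht).1 (by rw [← (w2 t ht).2, e, zero_pow two_ne_zero])
  obtain ⟨h1, h2, h3, h4⟩ := h
  refine ⟨h1, h2, (h3.mono (Set.prod_mono_left hV)).div
    ((w1.comp continuousOn_fst fun p hp => hp.1).pow a) fun p hp => pow_ne_zero _ (w0 _ hp.1),
    fun t ht => ⟨by simp only [(h4 t (hV ht)).1], fun u hu =>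
      ⟨div_ne_zero ((h4 t (hV ht)).2 u hu).1 (pow_ne_zero _ (w0 t ht)), ?_⟩⟩⟩
  simp only [div_pow, ((h4 t (hV ht)).2 u hu).2, leg_eq]
  rw [← pow_mul, mul_comm a, pow_mul, (w2 t ht).2]

theorem ex_const (s : Fin 1 → ℂ) : ∃ V ∈ 𝓝 s, ∃ (c : ℂ) (y : (Fin 1 → ℂ) → ℝ → ℂ),
    IsLoopM 2 leg V (fun _ => c) y := by
  obtain ⟨c, hc⟩ := Infinite.exists_notMem_finset ({0, 1, s 0} : Finset ℂ)
  simp only [Finset.mem_insert, Finset.mem_singleton, not_or] at hc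
  have k : Continuous fun t : Fin 1 → ℂ => leg t c := by simp only [leg_eq]; fun_prop
  have k0 : leg s c ≠ 0 := by
    rw [leg_eq]
    exact mul_ne_zero (mul_ne_zero hc.1 (sub_ne_zero.2 hc.2.1)) (sub_ne_zero.2 hc.2.2)
  obtain ⟨V, hV, y, y1, y2⟩ := ex_sq k k0
  refine ⟨_, inter_mem hV (k.continuousAt.eventually_ne k0), c, fun t _ => y t, contDiff_const, rfl,
    y1.comp continuousOn_fst fun p hp => hp.1.1, fun t ht => ⟨rfl, fun u _ => ⟨fun e => ht.2 ?_,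
      y2 t ht.1⟩⟩⟩
  rw [← y2 t ht.1, show y t = 0 from e, zero_pow two_ne_zero]

/-- `P t = tw (w t) (Q t)` with `Q` from `per_fam`; in the column `(b, k)` the factor `b` carries
the loop of the column `k` of `Q` (with `y / w ^ b`), the other factor a constant loop. -/
theorem ex2 (h0 : s 0 ≠ 0) (h1 : s 0 ≠ 1) : ∃ U P, s ∈ U ∧ IsPer2 U P := by
  obtain ⟨r, w, r0, w1, w2⟩ := sq_ex h0 h1
  obtain ⟨ρ, Q, ρ0, hQ⟩ := per_fam (σ := Fin 1) (n := 2) f2_sep.squarefree (by simp [f2_deg])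
    (t := s) (Function.injective_of_subsingleton _) fun l => by
      rw [Subsingleton.elim l 0]; exact f2_ne h0 h1
  have b1 : ball s (min r ρ) ⊆ ball s r := ball_subset_ball (min_le_left _ _)
  have b2 : ball s (min r ρ) ⊆ ball s ρ := ball_subset_ball (min_le_right _ _)
  refine ⟨ball s (min r ρ), fun t => tw (w t) (Q t), mem_ball_self (lt_min r0 ρ0), isOpen_ball,
    (convex_ball _ _).isPreconnected, fun z hz => ⟨(w2 z (b1 hz)).1, (w2 z (b1 hz)).2.1, ?_, ?_⟩⟩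
  · have w0 : w z ≠ 0 := fun e =>
      (w2 z (b1 hz)).1 (by rw [← (w2 z (b1 hz)).2.2, e, zero_pow two_ne_zero])
    simp only [tw, det_kronecker, det_diagonal]
    exact mul_ne_zero (pow_ne_zero _ (Finset.prod_ne_zero_iff.2 fun a _ => pow_ne_zero _ w0))
      (pow_ne_zero _ (hQ z (b2 hz)).1)
  · rintro ⟨b, k⟩
    obtain ⟨V, hV, x, y, l1, l2⟩ := (hQ z (b2 hz)).2 k
    obtain ⟨V', hV', c, y', l3⟩ := ex_const z
    have w3 : ∀ t ∈ V ∩ V' ∩ ball s r, t 0 ≠ 0 ∧ w t ^ 2 = t 0 := fun t ht =>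
      ⟨(w2 t ht.2).1, (w2 t ht.2).2.2⟩
    refine ⟨V ∩ V' ∩ ball s r, inter_mem (inter_mem hV hV') (isOpen_ball.mem_nhds (b1 hz)),
      fun a => ?_⟩
    rcases eq_or_ne a b with rfl | ab
    · refine ⟨x, _, ex_loop l1 (fun t ht => ht.1.1) (w1.mono fun t ht => ht.2) w3 a,
        fun t ht i => ?_⟩
      simp only [tw, kroneckerMap_apply, diagonal_apply_eq, l2 t ht.1.1 i, div_div_eq_mul_div]
      rw [← intervalIntegral.integral_const_mul]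
      exact intervalIntegral.integral_congr fun u _ => by ring
    · refine ⟨fun _ => c, _, ex_loop l3 (fun t ht => ht.1.2) (w1.mono fun t ht => ht.2) w3 a,
        fun t ht i => ?_⟩
      simp [tw, diagonal_apply_ne _ ab]

end

end Pool.Agent.Lib.MP_5591bc_ag.Tw
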