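import Pool.Agent.Lib.MP_5591bc_ag.Tw.Ex
import Pool.Agent.Lib.MP_5591bc_ag.Tw.DefZ

/-! Period matrices over an integral basis. -/

namespace Pool.Agent.Lib.MP_5591bc_ag.Tw

open Matrix Filter Topology Metric M F A Pl
open scoped Kronecker

noncomputable section

variable {U : Set (Fin 1 → ℂ)} {P : (Fin 1 → ℂ) → Matrix (Fin 2 × Fin 2) (Fin 2 × Fin 2) ℂ}
  {s t : Fin 1 → ℂ} {r : ℝ} {Q : (Fin 1 → ℂ) → Matrix (Fin 2) (Fin 2) ℂ} {w : (Fin 1 → ℂ) → ℂ}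
  {A : Matrix (Fin 2 × Fin 2) (Fin 2 × Fin 2) ℚ} {M g : Matrix (Fin 2) (Fin 2) ℂ} {v : ℂ}

theorem exz_leg (h0 : s 0 ≠ 0) (h1 : s 0 ≠ 1) :
    ∃ (r : ℝ) (Q : (Fin 1 → ℂ) → Matrix (Fin 2) (Fin 2) ℂ), 0 < r ∧ IsPerM leg (ball s r) Q ∧
      ∀ v, Lp (leg s) v → ∃ γ : Fin 2 → ℤ, v = Q s *ᵥ fun j => (γ j : ℂ) := by
  obtain ⟨T, W, h, -, hT⟩ := fam_fm2 (σ := Fin 1) (n := 2) f2_sep (by simp [f2_deg])
  have e : ev (fam (Fin 1) f2) = leg := funext₂ fun t z => ev_fam f2 t z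
  obtain ⟨-, p, p1, p2, p3⟩ := h.ok s (by
    rw [MvPolynomial.eval_map, ← MvPolynomial.aeval_def]
    exact (hT s).2 ⟨Function.injective_of_subsingleton _, fun l => by
      rw [Subsingleton.elim l 0]; exact f2_ne h0 h1⟩)
  obtain ⟨M, hM⟩ := rb_ex p1 p2 (by decide)
  obtain ⟨r, Q, r0, hQ, e2⟩ := per_ex2 (f := fam (Fin 1) f2) (s := s) hM.det (p3 ▸ hM.col)
  exact ⟨r, Q, r0, e ▸ hQ, fun v hv => e2 ▸ hM.int v (by rw [← p3, e]; exact hv)⟩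

theorem exz_tw (h0 : s 0 ≠ 0) (hv : v ^ 2 = s 0)
    (h : ∀ v, Lp (leg s) v → ∃ γ : Fin 2 → ℤ, v = M *ᵥ fun j => (γ j : ℂ)) : ZB s (tw v M) := by
  intro c hc
  have v0 : v ≠ 0 := fun e => h0 (by rw [← hv, e, zero_pow two_ne_zero])
  have k : ∀ a : Fin 2, ∃ γ : Fin 2 → ℤ,
      (fun i => c (a, i) / v ^ (a : ℕ)) = M *ᵥ fun j => (γ j : ℂ) := fun a => by
    obtain ⟨x, y, ⟨l1, l2, l3, l4⟩, e⟩ := hc a
    obtain ⟨l5, l6⟩ := l4 s rfl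
    refine h _ ⟨x, fun u => v ^ (a : ℕ) * y s u, l1, l2, continuousOn_const.mul
      (l3.comp (f := fun u => (s, u)) (by fun_prop) fun u hu => ⟨rfl, hu⟩), by simp only [l5],
      fun u hu => ⟨mul_ne_zero (pow_ne_zero _ v0) (l6 u hu).1, ?_⟩, fun i => ?_⟩
    · rw [mul_pow, (l6 u hu).2, ← pow_mul, mul_comm (a : ℕ), pow_mul, hv, leg_eq,
        mul_div_cancel₀ _ (pow_ne_zero _ h0)]
    · beta_reduce
      rw [e i, ← intervalIntegral.integral_div]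
      exact intervalIntegral.integral_congr fun u _ => by rw [div_div, mul_comm (y s u)]
  choose γ hγ using k
  refine ⟨fun j => γ j.1 j.2, funext fun ⟨a, i⟩ => ?_⟩
  have := congrFun (hγ a) i
  rw [div_eq_iff (pow_ne_zero _ v0)] at this
  rw [this]
  fin_cases a <;> simp [tw, mulVec, dotProduct, Fintype.sum_prod_type] <;> ring

theorem ex2z (h0 : s 0 ≠ 0) (h1 : s 0 ≠ 1) : ∃ U P, s ∈ U ∧ IsPer2 U P ∧ ZB s (P s) := by
  obtain ⟨r, w, r0, w1, w2⟩ := sq_ex h0 h1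
  obtain ⟨ρ, Q, ρ0, hQ, hZ⟩ := exz_leg h0 h1
  have b1 : ball s (min r ρ) ⊆ ball s r := ball_subset_ball (min_le_left _ _)
  have b2 : ball s (min r ρ) ⊆ ball s ρ := ball_subset_ball (min_le_right _ _)
  refine ⟨ball s (min r ρ), fun t => tw (w t) (Q t), mem_ball_self (lt_min r0 ρ0), ⟨isOpen_ball,
    (convex_ball _ _).isPreconnected, fun z hz => ⟨(w2 z (b1 hz)).1, (w2 z (b1 hz)).2.1, ?_, ?_⟩⟩,
    exz_tw h0 (w2 s (mem_ball_self r0)).2.2 hZ⟩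
  · have w0 : w z ≠ 0 := fun e =>
      (w2 z (b1 hz)).1 (by rw [← (w2 z (b1 hz)).2.2, e, zero_pow two_ne_zero])
    simp only [tw, det_kronecker, det_diagonal]
    exact mul_ne_zero (pow_ne_zero _ (Finset.prod_ne_zero_iff.2 fun a _ => pow_ne_zero _ w0))
      (pow_ne_zero _ (hQ z (b2 hz)).1)
  · rintro ⟨b, k⟩
    obtain ⟨V, hV, x, y, l1, l2⟩ := (hQ z (b2 hz)).2 k
    obtain ⟨V', hV', c, y', l3⟩ := ex_const z
    have w3 : ∀ t ∈ V ∩ V' ∩ ball s r, t 0 ≠ 0 ∧ w t ^ 2 = t 0 := fun t ht =>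
      ⟨(w2 t ht.2).1, (w2 t ht.2).2.2⟩
    refine ⟨V ∩ V' ∩ ball s r, inter_mem (inter_mem hV hV') (isOpen_ball.mem_nhds (b1 hz)),
      fun a => ?_⟩
    rcases eq_or_ne a b with rfl | ab
    · refine ⟨x, _, ex_loop l1 (fun t ht => ht.1.1) (w1.mono fun t ht => ht.2) w3 a,
        fun t ht i => ?_⟩
      simp only [tw, kroneckerMap_apply, diagonal_apply_eq, l2 t ht.1.1 i, div_div_eq_mul_div]
      rw [← intervalIntegral.integral_const_mul]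
      exact intervalIntegral.integral_congr fun u _ => by ring
    · refine ⟨fun _ => c, _, ex_loop l3 (fun t ht => ht.1.2) (w1.mono fun t ht => ht.2) w3 a,
        fun t ht i => ?_⟩
      simp [tw, diagonal_apply_ne _ ab]

end

end Pool.Agent.Lib.MP_5591bc_ag.Tw
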