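import Pool.Agent.Lib.MP_5591bc_ag.Pl.Grp
import Pool.Agent.Lib.MP_5591bc_ag.Rg.ChQA

/-! The Mumford-Tate group of an elliptic curve without complex multiplication. -/

namespace Pool.Agent.Lib.MP_5591bc_ag.Tw

open Matrix A Pl W Rg Filter Topology

open scoped ComplexConjugate

noncomputable section

variable {G : Set (Matrix (Fin 2) (Fin 2) ℂ)}

/-- the form `a ↦ ∑ L i j * (a * a) i j` -/
def glF {ν R : Type*} [DecidableEq ν] [Zero R] (L : ν → ν → R) : Mo 2 ν → R := fun μ =>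
  (μ 0).elim 0 fun p => (μ 1).elim 0 fun q => if p.2 = q.1 then L p.1 q.2 else 0

lemma gl_sq {ν : Type*} [Fintype ν] [DecidableEq ν] (L : ν → ν → ℂ) (a : Matrix ν ν ℂ) :
    glF L ⬝ᵥ mono 2 a = ∑ i, ∑ j, L i j * (a * a) i j := by
  rw [dotProduct, ← (piFinTwoEquiv fun _ => Option (ν × ν)).symm.sum_comp, Fintype.sum_prod_type]
  simp [glF, mono, G.tens, R.hatg, Fintype.sum_option, Fintype.sum_prod_type, mul_apply,
    Finset.mul_sum]
  exact Finset.sum_congr rfl fun i _ => Finset.sum_comm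

/-- a closed group with the diagonal torus and an element with `a b ≠ 0` has the upper unipotents -/
lemma gl_up {H : Set (Matrix (Fin 2) (Fin 2) ℂ)} (hm : ∀ a ∈ H, ∀ b ∈ H, a * b ∈ H)
    (hi : ∀ a ∈ H, a⁻¹ ∈ H) (hd : ∀ z w : ℂ, z ≠ 0 → w ≠ 0 → !![z, 0; 0, w] ∈ H)
    (hl : ∀ (g : ℂ → Matrix (Fin 2) (Fin 2) ℂ) a, Tendsto g (𝓝[≠] 0) (𝓝 a) →
      (∀ᶠ x in 𝓝[≠] 0, g x ∈ H) → a.det ≠ 0 → a ∈ H)
    {x : Matrix (Fin 2) (Fin 2) ℂ} (hx : x ∈ H) (x0 : x.det ≠ 0) (h : x 0 0 * x 0 1 ≠ 0) (c : ℂ) :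
    !![1, c; 0, 1] ∈ H := by
  rcases eq_or_ne c 0 with rfl | c0
  · exact hd 1 1 one_ne_zero one_ne_zero
  obtain ⟨a0, b0⟩ := mul_ne_zero_iff.1 h
  set k := -c * x.det / (x 0 0 * x 0 1) with hk
  have k0 : k ≠ 0 := div_ne_zero (mul_ne_zero (neg_ne_zero.2 c0) x0) h
  refine hl (fun e => !![1 + e * (x 0 0 * x 1 1 / x.det), c;
    e ^ 2 * (x 1 0 * x 1 1 / (x.det * k)), 1 - e * (x 1 0 * x 0 1 / x.det)]) _ ?_ ?_ (by simp)
  · refine (Continuous.tendsto' ?_ 0 _ (by simp)).mono_left nhdsWithin_le_nhds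
    refine continuous_matrix fun i j => ?_
    fin_cases i <;> fin_cases j <;> simp <;> fun_prop
  · have h1 : ∀ᶠ e : ℂ in 𝓝[≠] 0, 1 + e ≠ 0 := by
      refine Eventually.filter_mono nhdsWithin_le_nhds (ContinuousAt.eventually_ne ?_ (by simp))
      fun_prop
    filter_upwards [h1, self_mem_nhdsWithin] with e e1 (e0 : e ≠ 0)
    have := hm _ (hm _ (hm _ (hm _ (hd (k / e) 1 (div_ne_zero k0 e0) one_ne_zero) _ hx) _
      (hd (1 + e) 1 e1 one_ne_zero)) _ (hi _ hx)) _ (hd (e / k) 1 (div_ne_zero e0 k0) one_ne_zero)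
    convert this using 1
    have d : x.det = x 0 0 * x 1 1 - x 0 1 * x 1 0 := det_fin_two x
    rw [Matrix.inv_def, adjugate_fin_two, Ring.inverse_eq_inv]
    ext i j
    fin_cases i <;> fin_cases j <;> simp [mul_apply, vecMul, dotProduct] <;> field_simp
    · rw [d]; ring
    · rw [hk]; field_simp; ring
    · ring
    · rw [d]; ring

/-- a group with the diagonal torus and both kinds of unipotents is everything -/
lemma gl_all {H : Set (Matrix (Fin 2) (Fin 2) ℂ)} (hm : ∀ a ∈ H, ∀ b ∈ H, a * b ∈ H)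
    (hd : ∀ z w : ℂ, z ≠ 0 → w ≠ 0 → !![z, 0; 0, w] ∈ H) (hu : ∀ c : ℂ, !![1, c; 0, 1] ∈ H)
    (hv : ∀ c : ℂ, !![1, 0; c, 1] ∈ H) {g : Matrix (Fin 2) (Fin 2) ℂ} (g0 : g.det ≠ 0) : g ∈ H := by
  have k : ∀ g : Matrix (Fin 2) (Fin 2) ℂ, g.det ≠ 0 → g 0 0 ≠ 0 → g ∈ H := fun g g0 a0 => by
    convert hm _ (hm _ (hv (g 1 0 / g 0 0)) _ (hd _ _ a0 (div_ne_zero g0 a0))) _
      (hu (g 0 1 / g 0 0)) using 1
    ext i j
    fin_cases i <;> fin_cases j <;> simp [Matrix.mul_apply, det_fin_two] <;> field_simp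
    ring
  by_cases a0 : g 0 0 = 0
  · have c0 : g 1 0 ≠ 0 := fun e => g0 (by simp [det_fin_two, a0, e])
    convert hm _ (hu (-1)) _ (k (!![1, 1; 0, 1] * g) (by rw [det_mul]; simpa using g0)
      (by simpa [Matrix.mul_apply, a0] using c0)) using 1
    ext i j
    fin_cases i <;> fin_cases j <;> simp [mul_apply, vecMul, dotProduct]
  · exact k g g0 a0

/-- a `QGrp` that contains the Hodge torus of a non real, non quadratic line is everything -/
theorem gl_two (hG : QGrp G) {u v : ℂ} (h0 : u * star v - v * star u ≠ 0)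
    (hq : ∀ a b c : ℚ, a * u ^ 2 + b * (u * v) + c * v ^ 2 = 0 → a = 0)
    (h : ∀ (z : ℂ) (k : Matrix (Fin 2) (Fin 2) ℂ), z ≠ 0 → ![u, v] ᵥ* k = z • ![u, v] →
      ![star u, star v] ᵥ* k = star z • ![star u, star v] → k ∈ G)
    {g : Matrix (Fin 2) (Fin 2) ℂ} (g0 : g.det ≠ 0) : g ∈ G := by
  obtain ⟨C, hC⟩ : ∃ C : Matrix (Fin 2) (Fin 2) ℂ, C = !![u, v; star u, star v] := ⟨_, rfl⟩
  obtain ⟨d, d1, d2⟩ : ∃ d : ℂ, d * (u * conj v - v * conj u) = 1 ∧ conj d = -d := by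
    refine ⟨_, inv_mul_cancel₀ h0, ?_⟩
    rw [map_inv₀, neg_inv]
    simp [mul_comm]
  have d0 : d ≠ 0 := left_ne_zero_of_mul_eq_one d1
  obtain ⟨D, hD⟩ : ∃ D : Matrix (Fin 2) (Fin 2) ℂ, D = d • !![star v, -v; -star u, u] := ⟨_, rfl⟩
  have m1 : C * D = 1 := by
    rw [hC, hD]
    ext i j
    fin_cases i <;> fin_cases j <;> simp [Matrix.mul_apply]
    · linear_combination d1
    · ring
    · ring
    · linear_combination d1
  have m2 : D * C = 1 := mul_eq_one_comm.mp m1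
  have cn : ∀ a : Matrix (Fin 2) (Fin 2) ℂ, D * (C * a * D) * C = a := fun a => by
    simp only [← mul_assoc, m2, one_mul]
    rw [mul_assoc, m2, mul_one]
  have ml : ∀ a b : Matrix (Fin 2) (Fin 2) ℂ, D * (a * b) * C = D * a * C * (D * b * C) :=
    fun a b => by
      simp only [mul_assoc]
      rw [← mul_assoc C, m1, one_mul]
  have dt : ∀ a : Matrix (Fin 2) (Fin 2) ℂ, (D * a * C).det = a.det := fun a => by
    rw [det_mul_comm, ← mul_assoc, m1, one_mul]
  let H : Set (Matrix (Fin 2) (Fin 2) ℂ) := {a | D * a * C ∈ G}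
  have hm : ∀ a ∈ H, ∀ b ∈ H, a * b ∈ H := fun a ha b hb => by
    show _ ∈ G
    rw [ml]
    exact qg_mul hG ha hb
  have hi : ∀ a ∈ H, a⁻¹ ∈ H := fun a ha => by
    have := qg_inv hG ha
    rwa [Matrix.mul_inv_rev, Matrix.mul_inv_rev, inv_eq_right_inv m1, inv_eq_right_inv m2,
      ← mul_assoc] at this
  have e : ∀ z w : ℂ, D * !![z, 0; 0, w] * C =
      w • (1 : Matrix (Fin 2) (Fin 2) ℂ) + (z - w) • (D * !![1, 0; 0, 0] * C) := fun z w => by
    rw [← m2, ← smul_mul_assoc, ← smul_mul_assoc, ← add_mul, ← mul_smul_comm, ← mul_one (w • D),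
      smul_mul_assoc, ← mul_smul_comm, ← mul_add]
    congr 2
    ext i j
    fin_cases i <;> fin_cases j <;> simp
  have hd : ∀ z w : ℂ, z ≠ 0 → w ≠ 0 → !![z, 0; 0, w] ∈ H := fun z w z0 w0 => by
    show _ ∈ G
    rw [e]
    refine qg_tor hG (by rw [← ml, Matrix.mul_fin_two]; simp) (fun z z0 => ?_) z w z0 w0
    rw [← e]
    have k : C * (D * !![z, 0; 0, star z] * C) = !![z, 0; 0, star z] * C := by
      rw [← mul_assoc, ← mul_assoc, m1, one_mul]
    generalize D * !![z, 0; 0, star z] * C = y at k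
    rw [hC] at k
    refine h z y z0 (funext fun j => ?_) (funext fun j => ?_)
    · have := congrFun (congrFun k 0) j
      fin_cases j <;> simpa [Matrix.mul_apply, vecMul, dotProduct] using this
    · have := congrFun (congrFun k 1) j
      fin_cases j <;> simpa [Matrix.mul_apply, vecMul, dotProduct] using this
  have hl : ∀ (g : ℂ → Matrix (Fin 2) (Fin 2) ℂ) a, Tendsto g (𝓝[≠] 0) (𝓝 a) →
      (∀ᶠ x in 𝓝[≠] 0, g x ∈ H) → a.det ≠ 0 → a ∈ H := fun g a h1 h2 a0 =>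
    qg_lim (a := D * a * C) hG ((h1.const_mul D).mul_const C) h2 (by rwa [dt])
  obtain ⟨π, π1, π2⟩ : ∃ π : ℂ →ₗ[ℚ] ℚ, π (u ^ 2) ≠ 0 ∧
      Submodule.span ℚ {u * v, v ^ 2} ≤ LinearMap.ker π := by
    refine Submodule.exists_le_ker_of_notMem fun hu => ?_
    obtain ⟨b, c, hu⟩ := Submodule.mem_span_pair.1 hu
    refine one_ne_zero (hq 1 (-b) (-c) ?_)
    rw [← hu]
    simp [Rat.smul_def]
  have p1 : π (u * v) = 0 := π2 (Submodule.subset_span (by simp))
  have p2 : π (v ^ 2) = 0 := π2 (Submodule.subset_span (by simp))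
  obtain ⟨x, hx, x1⟩ : ∃ x ∈ H, (x * x) 0 1 ≠ 0 := by
    by_contra! hx
    have k := chqa_comp hG (F := glF ![![-(u * v), u ^ 2], ![-v ^ 2, u * v]]) (fun a ha => by
      have := hx (C * a * D) (by show _ ∈ G; rwa [cn])
      rw [show C * a * D * (C * a * D) = C * (a * a) * D by
        simp only [mul_assoc]; rw [← mul_assoc D, m2, one_mul]] at this
      rw [gl_sq]
      generalize a * a = y at this
      rw [hC, hD] at this
      simp [Matrix.mul_apply, vecMul, dotProduct] at this ⊢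
      refine mul_left_cancel₀ d0 ?_
      linear_combination this) π _ (hd 2 1 two_ne_zero one_ne_zero)
    rw [show (fun μ => (π (glF ![![-(u * v), u ^ 2], ![-v ^ 2, u * v]] μ) : ℂ)) =
      glF ![![0, (π (u ^ 2) : ℂ)], ![0, 0]] from ?_, gl_sq, ← ml, hC, hD] at k
    · simp [Matrix.mul_apply, π1] at k
      have v0 : v = 0 := by
        have : d * (conj v * v) = 0 := by linear_combination k / 3
        simpa [d0] using this
      exact h0 (by simp [v0])
    · funext μ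
      unfold glF
      rcases μ 0 with _ | ⟨i, k⟩ <;> rcases μ 1 with _ | ⟨l, j⟩ <;> simp
      split_ifs
      · fin_cases i <;> fin_cases j <;> simp [p1, p2]
      · simp
  have x0 : x.det ≠ 0 := dt x ▸ qg_det hG hx
  have hu : ∀ c : ℂ, !![1, c; 0, 1] ∈ H := by
    by_cases a0 : x 0 0 * x 0 1 = 0
    · refine gl_up hm hi hd hl (hi x hx) (by simpa using x0) ?_
      rw [Matrix.mul_apply, Fin.sum_univ_two, a0, zero_add] at x1
      rw [Matrix.inv_def, adjugate_fin_two, Ring.inverse_eq_inv]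
      simpa [x0, and_comm] using x1
    · exact gl_up hm hi hd hl hx x0 a0
  have hv : ∀ c : ℂ, !![1, 0; c, 1] ∈ H := fun c => by
    have := qg_star hG (hu (star c))
    show _ ∈ G
    convert this using 1
    rw [hC, hD]
    ext i j
    fin_cases i <;> fin_cases j <;> simp [Matrix.mul_apply, d2] <;> ring
  have := gl_all hm hd hu hv (g := C * g * D) (by rw [← dt, cn]; exact g0)
  rwa [← cn g]

end

end Pool.Agent.Lib.MP_5591bc_ag.Tw
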