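import Pool.Agent.Lib.MP_5591bc_ag.Tw.Set

/-! The second branch lies in the closure of the graph. -/

namespace Pool.Agent.Lib.MP_5591bc_ag.Tw

open Matrix Filter Topology Metric M F A Pl
open scoped Kronecker

noncomputable section

variable {U : Set (Fin 1 → ℂ)} {P : (Fin 1 → ℂ) → Matrix (Fin 2 × Fin 2) (Fin 2 × Fin 2) ℂ}
  {s t : Fin 1 → ℂ} {r : ℝ} {Q : (Fin 1 → ℂ) → Matrix (Fin 2) (Fin 2) ℂ} {w : (Fin 1 → ℂ) → ℂ}
  {A : Matrix (Fin 2 × Fin 2) (Fin 2 × Fin 2) ℚ} {M g : Matrix (Fin 2) (Fin 2) ℂ} {v : ℂ}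

theorem in_ent (v : ℂ) (M : Matrix (Fin 2) (Fin 2) ℂ)
    (A : Matrix (Fin 2 × Fin 2) (Fin 2 × Fin 2) ℚ) (a i : Fin 2) (k : Fin 2 × Fin 2) :
    (tw v M * qc A) (a, i) k = v ^ (a : ℕ) * ∑ j, M i j * (A (a, j) k : ℂ) := by
  rw [Matrix.mul_apply, Fintype.sum_prod_type, Finset.sum_eq_single a]
  · simp [tw, mul_assoc, mul_add]
  · intro b _ hb
    simp [tw, Matrix.diagonal_apply_ne _ hb.symm]
  · simp

theorem in_var (A : Matrix (Fin 2 × Fin 2) (Fin 2 × Fin 2) ℚ)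
    (x : Fin 1 ⊕ (Fin 2 × Fin 2) × Fin 2 × Fin 2) :
    ∃ a b : MvPolynomial (Fin 2 × Fin 2) (MvPolynomial (Fin 1) ℂ),
      ∀ (Q : (Fin 1 → ℂ) → Matrix (Fin 2) (Fin 2) ℂ) (t : Fin 1 → ℂ) (v : ℂ),
        pt t (tw v (Q t) * qc A) x = valM Q a t + v * valM Q b t := by
  rcases x with l | ⟨⟨a, i⟩, k⟩
  · exact ⟨MvPolynomial.C (MvPolynomial.X l), 0, fun Q t v => by simp [pt, valM]⟩
  · obtain ⟨c, e⟩ : ∃ c : MvPolynomial (Fin 2 × Fin 2) (MvPolynomial (Fin 1) ℂ),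
        ∀ (Q : (Fin 1 → ℂ) → Matrix (Fin 2) (Fin 2) ℂ) (t : Fin 1 → ℂ),
          valM Q c t = ∑ j, Q t i j * (A (a, j) k : ℂ) :=
      ⟨∑ j, MvPolynomial.X (i, j) * MvPolynomial.C (MvPolynomial.C (A (a, j) k : ℂ)),
        fun Q t => by
          simp only [valM, MvPolynomial.eval₂_sum, MvPolynomial.eval₂_mul, MvPolynomial.eval₂_X,
            MvPolynomial.eval₂_C, MvPolynomial.eval_C]⟩
    have z : ∀ (Q : (Fin 1 → ℂ) → Matrix (Fin 2) (Fin 2) ℂ) (t : Fin 1 → ℂ), valM Q 0 t = 0 :=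
      fun Q t => by simp [valM]
    have f : ∀ (Q : (Fin 1 → ℂ) → Matrix (Fin 2) (Fin 2) ℂ) (t : Fin 1 → ℂ) (v : ℂ),
        pt t (tw v (Q t) * qc A) (Sum.inr ((a, i), k)) =
          v ^ (a : ℕ) * ∑ j, Q t i j * (A (a, j) k : ℂ) := fun Q t v => in_ent v (Q t) A a i k
    by_cases h : a = 0
    · refine ⟨c, 0, fun Q t v => ?_⟩
      rw [f, ← e, z, h]
      simp only [Fin.val_zero, pow_zero, one_mul, mul_zero, add_zero]
    · refine ⟨0, c, fun Q t v => ?_⟩
      have : (a : ℕ) = 1 := by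
        have := a.2
        have : (a : ℕ) ≠ 0 := fun e => h (Fin.ext e)
        omega
      rw [f, ← e, z, this, pow_one, zero_add]

/-- induction on `H` -/
theorem in_split (A : Matrix (Fin 2 × Fin 2) (Fin 2 × Fin 2) ℚ)
    (H : MvPolynomial (Fin 1 ⊕ (Fin 2 × Fin 2) × Fin 2 × Fin 2) (algebraicClosure ℚ ℂ)) :
    ∃ a b : MvPolynomial (Fin 2 × Fin 2) (MvPolynomial (Fin 1) ℂ),
      ∀ (Q : (Fin 1 → ℂ) → Matrix (Fin 2) (Fin 2) ℂ) (t : Fin 1 → ℂ) (v : ℂ), v ^ 2 = t 0 →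
        MvPolynomial.aeval (pt t (tw v (Q t) * qc A)) H = valM Q a t + v * valM Q b t := by
  induction H using MvPolynomial.induction_on with
  | C c => exact ⟨MvPolynomial.C (MvPolynomial.C (c : ℂ)), 0, fun Q t v _ => by simp [valM]⟩
  | add p q hp hq =>
    obtain ⟨a, b, h⟩ := hp
    obtain ⟨a', b', h'⟩ := hq
    refine ⟨a + a', b + b', fun Q t v hv => ?_⟩
    rw [map_add, h Q t v hv, h' Q t v hv]
    simp only [valM, MvPolynomial.eval₂_add]
    ring
  | mul_X p x hp =>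
    obtain ⟨a, b, h⟩ := hp
    obtain ⟨a', b', h'⟩ := in_var A x
    refine ⟨a * a' + MvPolynomial.C (MvPolynomial.X 0) * (b * b'), a * b' + b * a',
      fun Q t v hv => ?_⟩
    rw [map_mul, MvPolynomial.aeval_X, h Q t v hv, h' Q t v]
    simp only [valM, MvPolynomial.eval₂_add, MvPolynomial.eval₂_mul, MvPolynomial.eval₂_C,
      MvPolynomial.eval_X, ← hv]
    ring

theorem in_ana (h : ∀ i j, AnalyticAt ℂ (fun t => Q t i j) s)
    (b : MvPolynomial (Fin 2 × Fin 2) (MvPolynomial (Fin 1) ℂ)) : AnalyticAt ℂ (valM Q b) s := by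
  unfold valM
  induction b using MvPolynomial.induction_on with
  | C c => simp only [MvPolynomial.eval₂_C]; exact aeval_ana c
  | add p q hp hq => simp only [MvPolynomial.eval₂_add]; exact hp.fun_add hq
  | mul_X p x hp =>
    simp only [MvPolynomial.eval₂_mul, MvPolynomial.eval₂_X]; exact hp.fun_mul (h _ _)

/-- the variable is not a square -/
theorem in_sq {p q : MvPolynomial (Fin 1) ℂ} (q0 : q ≠ 0)
    (h : ∀ᶠ t in 𝓝 s, MvPolynomial.eval t p ^ 2 = MvPolynomial.eval t q ^ 2 * t 0) : False := by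
  have hA : AnalyticOnNhd ℂ (fun z : Fin 1 → ℂ =>
      MvPolynomial.eval z (p ^ 2 - q ^ 2 * MvPolynomial.X 0)) Set.univ :=
    fun z _ => aeval_ana (K := ℂ) _
  have e := hA.eqOn_zero_of_preconnected_of_eventuallyEq_zero isPreconnected_univ
    (Set.mem_univ s) (by filter_upwards [h] with t ht; simp [ht])
  have e1 : p ^ 2 = q ^ 2 * MvPolynomial.X 0 :=
    sub_eq_zero.1 (MvPolynomial.funext fun z => by simpa using e (Set.mem_univ z))
  have p0 : p ≠ 0 := by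
    rintro rfl
    exact mul_ne_zero (pow_ne_zero 2 q0) (MvPolynomial.X_ne_zero 0) (by rw [← e1]; simp)
  have := congrArg MvPolynomial.totalDegree e1
  rw [sq, sq, MvPolynomial.totalDegree_mul_of_isDomain p0 p0,
    MvPolynomial.totalDegree_mul_of_isDomain (mul_ne_zero q0 q0) (MvPolynomial.X_ne_zero 0),
    MvPolynomial.totalDegree_mul_of_isDomain q0 q0, MvPolynomial.totalDegree_X] at this
  omega

/-- `connM_fam` with `a ^ 2 - t b ^ 2 = 0`; `q ^ 2 t = p ^ 2` on an open set is impossible -/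
theorem str_in (h : Loc2 P s r Q w A) (hU : ball s r ⊆ U) :
    pt s (tw (-w s) (Q s) * qc A) ∈ Cl ((fun t => pt t (P t)) '' U) := by
  obtain ⟨r0, hQ, -, -, hb⟩ := h
  intro H hH
  obtain ⟨a, b, e⟩ := in_split A H
  have hP : IsPerM (ev (fam (Fin 1) f2)) (ball s r) Q := by
    have : ev (fam (Fin 1) f2) = leg := by
      funext t z
      exact ev_fam f2 t z
    rwa [this]
  have hC : ConnM (ball s r) Q := connM_fam (n := 2) f2_sep (by simp [f2_deg]) isOpen_ball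
    (convex_ball s r).isPreconnected hP
  have h0 : ∀ t ∈ ball s r, valM Q a t = -(w t * valM Q b t) := fun t ht => by
    have := hH _ ⟨t, hU ht, rfl⟩
    simp only at this
    rw [(hb t ht).2.2.2, e Q t _ (hb t ht).2.2.1] at this
    exact eq_neg_of_add_eq_zero_left this
  have b0 : ∀ t ∈ ball s r, valM Q b t = 0 := by
    by_contra hn
    push Not at hn
    obtain ⟨p, q, q0, hq⟩ := hC a b 2 (fun j => if j = 0 then -MvPolynomial.X 0 else
      if j = 2 then 1 else 0) hn ⟨2, le_rfl, by simp⟩ fun t ht => by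
        simp [Finset.sum_range_succ, h0 t ht, mul_pow, (hb t ht).2.2.1]
    obtain ⟨t, ht, hbt⟩ := hn
    have hc := (in_ana (fun i j => (per_ode hP ht i j).1) b).continuousAt
    refine in_sq (s := t) (p := p) q0 ?_
    filter_upwards [hc.eventually_ne hbt, isOpen_ball.mem_nhds ht] with z hz hz'
    have := hq z hz'
    rw [h0 z hz'] at this
    have e1 : MvPolynomial.eval z p = -(MvPolynomial.eval z q * w z) :=
      mul_right_cancel₀ hz (by rw [← this]; ring)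
    rw [e1, ← (hb z hz').2.2.1]
    ring
  have hs := mem_ball_self (x := s) r0
  rw [e Q s _ (by rw [neg_sq, (hb s hs).2.2.1]), h0 s hs, b0 s hs]
  simp

end

end Pool.Agent.Lib.MP_5591bc_ag.Tw
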