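import Pool.Agent.Lib.MP_5591bc_ag.Tw.Not

/-! Infinitely many integral fibres have no complex multiplication. -/

namespace Pool.Agent.Lib.MP_5591bc_ag.Tw

open Matrix Filter Topology Metric M F A Pl
open scoped Kronecker

noncomputable section

variable {U : Set (Fin 1 → ℂ)} {P : (Fin 1 → ℂ) → Matrix (Fin 2 × Fin 2) (Fin 2 × Fin 2) ℂ}
  {s t : Fin 1 → ℂ} {r : ℝ} {Q : (Fin 1 → ℂ) → Matrix (Fin 2) (Fin 2) ℂ} {w : (Fin 1 → ℂ) → ℂ}
  {A : Matrix (Fin 2 × Fin 2) (Fin 2 × Fin 2) ℚ} {M g : Matrix (Fin 2) (Fin 2) ℂ} {v : ℂ}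

/-- a set of naturals whose complement in `[2, H]` is polylogarithmic is infinite -/
theorem inf_cnt {G : Set ℕ} {c : ℝ} {N : ℕ} (h : ∀ H : ℕ, 2 ≤ H → ∀ S : Finset ℕ,
    (∀ m ∈ S, 2 ≤ m ∧ m ≤ H ∧ m ∉ G) → (S.card : ℝ) ≤ (c * Real.log H) ^ N) : G.Infinite := by
  classical
  intro hf
  have o1 : (fun x : ℝ => (c * Real.log x) ^ N) =o[atTop] fun x => x := by
    simp only [mul_pow]
    exact (Real.isLittleO_pow_log_id_atTop (n := N)).const_mul_left _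
  have o2 := (o1.comp_tendsto tendsto_natCast_atTop_atTop).def (c := 1 / 2) (by norm_num)
  obtain ⟨H, h1, h2⟩ := (o2.and (eventually_ge_atTop (2 * hf.toFinset.card + 4))).exists
  have k := h H (by omega) (Finset.Icc 2 H \ hf.toFinset) fun m hm => by
    simp only [Finset.mem_sdiff, Finset.mem_Icc, Set.Finite.mem_toFinset] at hm
    exact ⟨hm.1.1, hm.1.2, hm.2⟩
  have k1 := Finset.le_card_sdiff hf.toFinset (Finset.Icc 2 H)
  rw [Nat.card_Icc] at k1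
  have k2 : H + 1 ≤ 2 * (Finset.Icc 2 H \ hf.toFinset).card := by omega
  have k3 : (H : ℝ) + 1 ≤ 2 * (Finset.Icc 2 H \ hf.toFinset).card := by exact_mod_cast k2
  simp only [Function.comp, Real.norm_eq_abs, Nat.abs_cast] at h1
  linarith [le_abs_self ((c * Real.log H) ^ N)]

theorem inf_poly {m H : ℕ} (h : m ≤ H) (h1 : 1 ≤ H) : ∃ q : Polynomial ℤ, q ≠ 0 ∧
    (∀ i, |(q.coeff i : ℝ)| ≤ H) ∧ Polynomial.aeval (m : ℂ) q = 0 := by
  refine ⟨Polynomial.X - Polynomial.C (m : ℤ), Polynomial.X_sub_C_ne_zero _, fun i => ?_, by simp⟩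
  rw [Polynomial.coeff_sub, Polynomial.coeff_X, Polynomial.coeff_C]
  rcases i with _ | _ | i <;> simp [h, h1]

theorem inf_nq : {m : ℕ | 2 ≤ m ∧ ∀ (U : Set (Fin 1 → ℂ))
    (Q : (Fin 1 → ℂ) → Matrix (Fin 2) (Fin 2) ℂ), IsOpen U → IsPreconnected U → IsPerM leg U Q →
      (fun _ => (m : ℂ)) ∈ U → ¬ Qd (Q fun _ => m)}.Infinite := by
  classical
  obtain ⟨C, hC⟩ := hyp_off (K := ℚ) (k := 1) (g := 1) (n := 2) f2_sep.squarefree f2_deg.ge one_pos
    rfl (by rw [f2_deg]) (r := fun _ => 0) fun i => by rw [Subsingleton.elim i 0]; rfl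
  refine inf_cnt (c := C * ((1 : ℕ) + 2) * (2 : ℕ)) (N := C * (1 + 1) ^ (1 * 2 ^ 2))
    fun H H2 S hS => ?_
  have hi : Function.Injective fun (m : ℕ) (_ : Fin 1) => (m : ℂ) := fun a b e =>
    Nat.cast_injective (congrFun e 0)
  rw [← Finset.card_image_of_injective S hi]
  refine hC 1 2 H (by exact_mod_cast H2) _ fun t ht => ?_
  obtain ⟨m, hm, rfl⟩ := Finset.mem_image.1 ht
  obtain ⟨m2, mH, k⟩ := hS m hm
  simp only [Set.mem_ofPred_eq, not_and, not_forall, not_not] at k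
  obtain ⟨U, Q, ho, hc, hQ, mU, hq⟩ := k m2
  obtain ⟨E, x, hx, e1, e2, hb⟩ := leg_not ho hc hQ m2 mU hq
  exact ⟨fun a b _ => Subsingleton.elim a b, fun _ => f2_ne (Nat.cast_ne_zero.2 (by omega))
    (Nat.cast_ne_one.2 (by omega)), fun _ => inf_poly mH (by omega), U, Q, ho, hc, hQ, mU,
    Or.inl rfl, E, x, hx, e1, e2, hb⟩

end

end Pool.Agent.Lib.MP_5591bc_ag.Tw
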