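import Pool.Agent.Lib.MP_5591bc_ag.Tw.Ex

/-! Local form of a period matrix of the product. -/

namespace Pool.Agent.Lib.MP_5591bc_ag.Tw

open Matrix Filter Topology Metric M F A Pl
open scoped Kronecker

noncomputable section

variable {U : Set (Fin 1 → ℂ)} {P : (Fin 1 → ℂ) → Matrix (Fin 2 × Fin 2) (Fin 2 × Fin 2) ℂ}
  {s t : Fin 1 → ℂ} {r : ℝ} {Q : (Fin 1 → ℂ) → Matrix (Fin 2) (Fin 2) ℂ} {w : (Fin 1 → ℂ) → ℂ}
  {A : Matrix (Fin 2 × Fin 2) (Fin 2 × Fin 2) ℚ} {M g : Matrix (Fin 2) (Fin 2) ℂ} {v : ℂ}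

theorem loc_const {B : Set (Fin 1 → ℂ)} (hB : IsPreconnected B) {φ : (Fin 1 → ℂ) → ℂ}
    (hφ : ContinuousOn φ B) (hq : ∀ t ∈ B, ∃ q : ℚ, φ t = q) (hs : s ∈ B) (ht : t ∈ B) :
    φ t = φ s :=
  (Set.countable_range (Rat.cast : ℚ → ℂ)).isTotallyDisconnected _ (by
    rintro _ ⟨t, ht, rfl⟩
    obtain ⟨q, e⟩ := hq t ht
    exact ⟨q, e.symm⟩) (hB.image φ hφ) ⟨t, ht, rfl⟩ ⟨s, hs, rfl⟩

theorem loc_ev : ev (fam (Fin 1) f2) = leg := funext₂ fun t z => ev_fam f2 t z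

theorem loc_rat (t0 : t 0 ≠ 0) (t1 : t 0 ≠ 1) (M0 : M.det ≠ 0)
    (hM : ∀ j, Lp (leg t) fun i => M i j) {c : Fin 2 → ℂ} (hc : Lp (leg t) c) (k : Fin 2) :
    ∃ q : ℚ, (M⁻¹ *ᵥ c) k = q := by
  have e : Polynomial.eval (p := f2.map (algebraMap ℚ ℂ) * (Polynomial.X - Polynomial.C (t 0))) =
      leg t := funext fun z => by simp [leg, Polynomial.eval_map_algebraMap]
  obtain ⟨γ, hγ⟩ := lat_rat (p := f2.map (algebraMap ℚ ℂ) * (Polynomial.X - Polynomial.C (t 0)))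
    (n := 2) (f2_sep.map.mul Polynomial.separable_X_sub_C
      ((Polynomial.irreducible_X_sub_C _).coprime_iff_not_dvd.2 (by
        rw [Polynomial.dvd_iff_isRoot, Polynomial.IsRoot, Polynomial.eval_map_algebraMap]
        exact f2_ne t0 t1)).symm) (by
      rw [mul_comm, (Polynomial.monic_X_sub_C _).natDegree_mul'
        (Polynomial.map_ne_zero f2_sep.ne_zero), Polynomial.natDegree_map, f2_deg,
        Polynomial.natDegree_X_sub_C]) M0 (e ▸ hM) (N := .of fun i _ => c i) (fun _ => e ▸ hc)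
  refine ⟨γ k 0, ?_⟩
  have := congrArg (fun X => (M⁻¹ * X) k 0) hγ
  simp only [← Matrix.mul_assoc, nonsing_inv_mul _ M0.isUnit, Matrix.one_mul] at this
  exact this

/-- one column, one factor -/
theorem loc_col (h : IsPer2 U P) (hs : s ∈ U) (hw : ∀ᶠ t in 𝓝 s, ContinuousAt w t ∧
    t 0 ≠ 0 ∧ w t ^ 2 = t 0) (j : Fin 2 × Fin 2) (a : Fin 2) : ∀ᶠ t in 𝓝 s,
      (Lp (leg t) fun i => P t (a, i) j / w t ^ (a : ℕ)) ∧
      ∀ i, ContinuousAt (fun t => P t (a, i) j / w t ^ (a : ℕ)) t := by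
  obtain ⟨V, hV, h1⟩ := (h.2.2 s hs).2.2.2 j
  obtain ⟨x, y, ⟨l1, l2, l3, l4⟩, e⟩ := h1 a
  obtain ⟨V', hV', hV2⟩ := (hw.and hV).exists_mem
  have w0 : ∀ t ∈ V', w t ≠ 0 := fun t ht e =>
    (hV2 t ht).1.2.1 (by rw [← (hV2 t ht).1.2.2, e, zero_pow two_ne_zero])
  have L : IsLoopM 2 leg V' x fun t u => w t ^ (a : ℕ) * y t u := by
    refine ⟨l1, l2, ContinuousOn.mul (fun p hp => ?_)
      (l3.mono (Set.prod_mono (fun t ht => (hV2 t ht).2) le_rfl)), fun t ht => ?_⟩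
    · exact (((hV2 p.1 hp.1).1.1.comp continuousAt_fst).pow _).continuousWithinAt
    · obtain ⟨k1, k2⟩ := l4 t (hV2 t ht).2
      refine ⟨congrArg (w t ^ (a : ℕ) * ·) k1, fun u hu =>
        ⟨mul_ne_zero (pow_ne_zero _ (w0 t ht)) (k2 u hu).1, ?_⟩⟩
      rw [mul_pow, (k2 u hu).2, ← pow_mul, mul_comm (a : ℕ), pow_mul, (hV2 t ht).1.2.2, leg_eq,
        mul_div_cancel₀ _ (pow_ne_zero _ (hV2 t ht).1.2.1)]
  have e' : ∀ t ∈ V', ∀ i : Fin 2, P t (a, i) j / w t ^ (a : ℕ) =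
      ∫ u in (0 : ℝ)..1, x u ^ (i : ℕ) * deriv x u / (w t ^ (a : ℕ) * y t u) := fun t ht i => by
    rw [e t (hV2 t ht).2, ← intervalIntegral.integral_div]
    simp only [div_div, mul_comm (y t _)]
  filter_upwards [eventually_eventually_nhds.2 hV'] with t ht
  have m := mem_of_mem_nhds ht
  refine ⟨⟨x, _, l1, l2, L.2.2.1.comp (f := fun u => (t, u)) (by fun_prop) fun u hu => ⟨m, hu⟩,
    (L.2.2.2 t m).1, (L.2.2.2 t m).2, e' t m⟩, fun i => ?_⟩
  have := (per_col (a := 1) two_pos (loc_ev ▸ L :) ht i).1.continuousAt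
  simp only [pow_one] at this
  exact this.congr (mem_of_superset ht fun z hz => (e' z hz i).symm)

/-- `(x, w ^ a * y)` is a loop on the Legendre curve; `(Q t)⁻¹` times its periods is continuous in
`t` with rational values (`lat_rat`), hence constant on a ball. -/
theorem loc2 (h : IsPer2 U P) (hs : s ∈ U) :
    ∃ r Q w A, ball s r ⊆ U ∧ Loc2 P s r Q w A := by
  obtain ⟨s0, s1, P0, -⟩ := h.2.2 s hs
  obtain ⟨r₁, w, r1, w1, w2⟩ := sq_ex s0 s1
  obtain ⟨r₂, Q, r2, hQ⟩ := per_fam (f₀ := f2) (σ := Fin 1) (n := 2) f2_sep.squarefree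
    (by rw [f2_deg]; rfl) (t := s) (Function.injective_of_subsingleton _)
    fun l => by rw [Subsingleton.elim l 0]; exact f2_ne s0 s1
  replace hQ : IsPerM leg (ball s r₂) Q := hQ
  have hw : ∀ᶠ t in 𝓝 s, ContinuousAt w t ∧ t 0 ≠ 0 ∧ w t ^ 2 = t 0 :=
    mem_of_superset (ball_mem_nhds s r1) fun t ht =>
      ⟨w1.continuousAt (isOpen_ball.mem_nhds ht), (w2 t ht).1, (w2 t ht).2.2⟩
  have k := eventually_all.2 fun j => eventually_all.2 fun a => loc_col h hs hw j a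
  obtain ⟨r, r0, hr⟩ := Metric.mem_nhds_iff.1 (k.and ((Eventually.and (h.1.mem_nhds hs)
    (Eventually.and (ball_mem_nhds s r1) (ball_mem_nhds s r2)))))
  have m := mem_ball_self (x := s) r0
  have w0 : ∀ t ∈ ball s r, w t ≠ 0 := fun t ht e =>
    (w2 t (hr ht).2.2.1).1 (by rw [← (w2 t (hr ht).2.2.1).2.2, e, zero_pow two_ne_zero])
  have hq : ∀ t ∈ ball s r, ∀ (b j : Fin 2 × Fin 2), ∃ q : ℚ,
      ((Q t)⁻¹ *ᵥ fun i => P t (b.1, i) j / w t ^ (b.1 : ℕ)) b.2 = q := fun t ht b j =>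
    loc_rat (w2 t (hr ht).2.2.1).1 (w2 t (hr ht).2.2.1).2.1 (hQ t (hr ht).2.2.2).1
      (hQ.lp (hr ht).2.2.2) ((hr ht).1 j b.1).1 b.2
  choose A hA using hq s m
  have hc : ∀ t ∈ ball s r, ∀ (b j : Fin 2 × Fin 2),
      ((Q t)⁻¹ *ᵥ fun i => P t (b.1, i) j / w t ^ (b.1 : ℕ)) b.2 = A b j := fun t ht b j => by
    rw [← hA]
    refine loc_const (φ := fun t => ((Q t)⁻¹ *ᵥ fun i => P t (b.1, i) j / w t ^ (b.1 : ℕ)) b.2)
      (convex_ball s r).isPreconnected (fun z hz => ContinuousAt.continuousWithinAt ?_)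
      (fun z hz => hq z hz b j) m ht
    have c1 : ContinuousAt Q z := continuousAt_pi.2 fun i => continuousAt_pi.2 fun j =>
      (per_ode (loc_ev ▸ hQ :) (hr hz).2.2.2 i j).1.continuousAt
    have c2 : ContinuousAt (fun t => (Q t)⁻¹) z := (continuousAt_matrix_inv _ (by
      rw [Ring.inverse_eq_inv']; exact continuousAt_inv₀ (hQ z (hr hz).2.2.2).1)).comp c1
    simp only [mulVec, dotProduct]
    exact tendsto_finsetSum _ fun i _ => (continuousAt_pi.1 (continuousAt_pi.1 c2 _) i).mul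
      (((hr hz).1 j b.1).2 i)
  have he : ∀ t ∈ ball s r, P t = tw (w t) (Q t) * qc (.of A) := fun t ht => by
    ext ⟨a, i⟩ j
    have e1 : Q t *ᵥ (fun k => (A (a, k) j : ℂ)) = fun i => P t (a, i) j / w t ^ (a : ℕ) := by
      rw [← show ((Q t)⁻¹ *ᵥ fun i => P t (a, i) j / w t ^ (a : ℕ)) = fun k => (A (a, k) j : ℂ) from
        funext fun k => hc t ht (a, k) j, mulVec_mulVec,
        mul_nonsing_inv _ (hQ t (hr ht).2.2.2).1.isUnit, one_mulVec]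
    have e2 := congrFun e1 i
    rw [eq_div_iff (pow_ne_zero _ (w0 t ht))] at e2
    rw [← e2, mul_apply, Fintype.sum_prod_type, Finset.sum_eq_single a (fun b _ hb => by
      simp [tw, diagonal_apply_ne _ hb.symm]) (by simp)]
    simp [tw, mulVec, dotProduct]
    ring
  refine ⟨r, Q, w, .of A, fun t ht => (hr ht).2.1, r0, fun t ht => hQ t (hr ht).2.2.2,
    w1.mono fun t ht => (hr ht).2.2.1, fun e => P0 ?_, fun t ht =>
      ⟨(w2 t (hr ht).2.2.1).1, (w2 t (hr ht).2.2.1).2.1, (w2 t (hr ht).2.2.1).2.2, he t ht⟩⟩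
  rw [he s m, det_mul, show qc (Matrix.of A) = (Rat.castHom ℂ).mapMatrix (.of A) from rfl,
    ← RingHom.map_det, e, map_zero, mul_zero]

end

end Pool.Agent.Lib.MP_5591bc_ag.Tw
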