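import Pool.Agent.Lib.MP_5591bc_ag.Tw.Set
import Pool.Agent.Lib.MP_5591bc_ag.Tw.GlTwo

/-! The Mumford-Tate group of an elliptic curve without complex multiplication. -/

namespace Pool.Agent.Lib.MP_5591bc_ag.Tw

open Matrix Filter Topology Metric M F A Pl
open scoped Kronecker

noncomputable section

variable {U : Set (Fin 1 → ℂ)} {P : (Fin 1 → ℂ) → Matrix (Fin 2 × Fin 2) (Fin 2 × Fin 2) ℂ}
  {s t : Fin 1 → ℂ} {r : ℝ} {Q : (Fin 1 → ℂ) → Matrix (Fin 2) (Fin 2) ℂ} {w : (Fin 1 → ℂ) → ℂ}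
  {A : Matrix (Fin 2 × Fin 2) (Fin 2 × Fin 2) ℚ} {M g : Matrix (Fin 2) (Fin 2) ℂ} {v : ℂ}

theorem mt_gl2 (h : RI M) (hq : ¬ Qd M) (g0 : g.det ≠ 0) : g ∈ MTG (row0 M) := fun G hG => by
  refine gl_two hG.1 (u := M 0 0) (v := M 0 1) (fun e => h ?_) (fun a b c e => ?_)
    (fun z k z0 k1 k2 => hG.2 z k z0 ?_ ?_) g0
  · have := congrArg Complex.im e
    simp at this ⊢
    linarith
  · by_contra a0
    exact hq ⟨c, b, a, Or.inr (Or.inr a0), by linear_combination e⟩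
  · ext i j
    simpa [row0, mul_apply, vecMul, dotProduct, Fin.sum_univ_two, (by fin_cases j <;> rfl :
      ![M 0 0, M 0 1] j = M 0 j)] using congrFun k1 j
  · ext i j
    fin_cases j
    · simpa [row0, mul_apply, vecMul, dotProduct, Fin.sum_univ_two] using congrFun k2 0
    · simpa [row0, mul_apply, vecMul, dotProduct, Fin.sum_univ_two] using congrFun k2 1

end

end Pool.Agent.Lib.MP_5591bc_ag.Tw
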