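import Pool.Agent.Lib.MP_5591bc_ag.Tw.Set

/-! The closure of the period point misses the second branch. -/

namespace Pool.Agent.Lib.MP_5591bc_ag.Tw

open Matrix Filter Topology Metric M F A Pl
open scoped Kronecker

noncomputable section

variable {U : Set (Fin 1 → ℂ)} {P : (Fin 1 → ℂ) → Matrix (Fin 2 × Fin 2) (Fin 2 × Fin 2) ℂ}
  {s t : Fin 1 → ℂ} {r : ℝ} {Q : (Fin 1 → ℂ) → Matrix (Fin 2) (Fin 2) ℂ} {w : (Fin 1 → ℂ) → ℂ}
  {A : Matrix (Fin 2 × Fin 2) (Fin 2 × Fin 2) ℚ} {M g : Matrix (Fin 2) (Fin 2) ℂ} {v : ℂ}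

theorem tw_det (v0 : v ≠ 0) (M0 : M.det ≠ 0) (A0 : A.det ≠ 0) : (tw v M * qc A).det ≠ 0 := by
  rw [det_mul, show (qc A).det = (A.det : ℂ) from ((Rat.castHom ℂ).map_det A).symm, tw,
    det_kronecker, det_diagonal]
  exact mul_ne_zero (mul_ne_zero (pow_ne_zero _ (Finset.prod_ne_zero_iff.2 fun a _ =>
    pow_ne_zero _ v0)) (pow_ne_zero _ M0)) (Rat.cast_ne_zero.2 A0)

theorem cl_sub {ν : Type*} {P : (Fin 1 → ℂ) → Matrix ν ν ℂ} (hs : s ∈ U)
    (ha : IsAlgebraic ℚ (s 0)) {X : Matrix ν ν ℂ}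
    (hX : (fun a : ν × ν => X a.1 a.2) ∈ Cl {fun a : ν × ν => P s a.1 a.2}) :
    pt s X ∈ Cl ((fun t => pt t (P t)) '' U) := by
  intro F hF
  have al : ∀ l, s l ∈ algebraicClosure ℚ ℂ := fun l => by
    rw [Subsingleton.elim l 0]; exact mem_algebraicClosure_iff.2 ha
  have key : ∀ g : Matrix ν ν ℂ, MvPolynomial.aeval (fun a : ν × ν => g a.1 a.2)
      (MvPolynomial.aeval (Sum.elim (fun l => MvPolynomial.C ⟨s l, al l⟩) MvPolynomial.X :
        Fin 1 ⊕ ν × ν → MvPolynomial (ν × ν) (algebraicClosure ℚ ℂ)) F) =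
      MvPolynomial.aeval (pt s g) F := fun g => by
    rw [MvPolynomial.comp_aeval_apply]
    congr 2
    funext x
    rcases x with l | a
    · simp [pt]
    · simp [pt]
  rw [← key]
  refine hX _ fun a h => ?_
  rw [Set.mem_singleton_iff.1 h, key]
  exact hF _ ⟨s, hs, rfl⟩

/-- the linear form `(X A⁻¹) (1,i) (1,j) - v (X A⁻¹) (0,i) (0,j)` with `M i j ≠ 0` -/
theorem str_out (v0 : v ≠ 0) (va : IsAlgebraic ℚ v) (M0 : M.det ≠ 0) (A0 : A.det ≠ 0) :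
    (fun a : (Fin 2 × Fin 2) × Fin 2 × Fin 2 => (tw (-v) M * qc A) a.1 a.2) ∉
      Cl {fun a : (Fin 2 × Fin 2) × Fin 2 × Fin 2 => (tw v M * qc A) a.1 a.2} := by
  intro h
  obtain ⟨i, j, hij⟩ : ∃ i j, M i j ≠ 0 := by
    by_contra hn
    push Not at hn
    exact M0 (by rw [show M = 0 from Matrix.ext hn, det_zero])
  have inv : qc A * qc A⁻¹ = 1 := by
    rw [show qc A * qc A⁻¹ = qc (A * A⁻¹) from (Matrix.map_mul (f := Rat.castHom ℂ)).symm,
      mul_nonsing_inv _ (Ne.isUnit A0)]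
    exact Matrix.map_one _ Rat.cast_zero Rat.cast_one
  let F : MvPolynomial ((Fin 2 × Fin 2) × Fin 2 × Fin 2) (algebraicClosure ℚ ℂ) :=
    ∑ k, MvPolynomial.X ((1, i), k) * MvPolynomial.C ((A⁻¹ k (1, j) : ℚ) : algebraicClosure ℚ ℂ) -
      MvPolynomial.C ⟨v, mem_algebraicClosure_iff.2 va⟩ * ∑ k, MvPolynomial.X ((0, i), k) *
        MvPolynomial.C ((A⁻¹ k (0, j) : ℚ) : algebraicClosure ℚ ℂ)
  have ev : ∀ Y : Matrix (Fin 2 × Fin 2) (Fin 2 × Fin 2) ℂ,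
      MvPolynomial.aeval (fun a : (Fin 2 × Fin 2) × Fin 2 × Fin 2 => Y a.1 a.2) F =
        (Y * qc A⁻¹) (1, i) (1, j) - v * (Y * qc A⁻¹) (0, i) (0, j) := fun Y => by
    simp only [F, map_sub, map_mul, map_sum, MvPolynomial.aeval_X, MvPolynomial.aeval_C,
      map_ratCast, Matrix.mul_apply, Matrix.map_apply]
    rfl
  have val : ∀ u : ℂ, MvPolynomial.aeval
      (fun a : (Fin 2 × Fin 2) × Fin 2 × Fin 2 => (tw u M * qc A) a.1 a.2) F =
        (u - v) * M i j := fun u => by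
    rw [ev, Matrix.mul_assoc, inv, Matrix.mul_one]
    simp [tw, sub_mul]
  have h1 := h F fun a ha => by rw [Set.mem_singleton_iff.1 ha, val, sub_self, zero_mul]
  rw [val] at h1
  refine mul_ne_zero (fun h2 => v0 ?_) hij h1
  linear_combination (-1 / 2 : ℂ) * h2

end

end Pool.Agent.Lib.MP_5591bc_ag.Tw
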