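import Pool.Agent.Lib.MP_5591bc_ag.Tw.Loc
import Pool.Agent.Lib.MP_5591bc_ag.Tw.Out
import Pool.Agent.Lib.MP_5591bc_ag.Tw.In
import Pool.Agent.Lib.MP_5591bc_ag.Tw.Mt2
import Pool.Agent.Lib.MP_5591bc_ag.Tw.Hg
import Pool.Agent.Lib.MP_5591bc_ag.Tw.Inf

/-! The twisted product of the Legendre family. -/

namespace Pool.Agent.Lib.MP_5591bc_ag.Tw

open Matrix Filter Topology Metric M F A Pl
open scoped Kronecker

noncomputable section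

variable {U : Set (Fin 1 → ℂ)} {P : (Fin 1 → ℂ) → Matrix (Fin 2 × Fin 2) (Fin 2 × Fin 2) ℂ}
  {s t : Fin 1 → ℂ} {r : ℝ} {Q : (Fin 1 → ℂ) → Matrix (Fin 2) (Fin 2) ℂ} {w : (Fin 1 → ℂ) → ℂ}
  {A : Matrix (Fin 2 × Fin 2) (Fin 2 × Fin 2) ℚ} {M g : Matrix (Fin 2) (Fin 2) ℂ} {v : ℂ}

theorem tw_iso (h : IsPer2 U P) (hs : s ∈ U) : Iso (fun t => hol (P t)) s := by
  obtain ⟨r, Q, w, A, -, k⟩ := loc2 h hs
  have m := mem_ball_self (x := s) k.1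
  obtain ⟨T, W, J, -, -, e⟩ := leg_pol isOpen_ball (convex_ball s r).isPreconnected k.2.1 m
  exact iso2 k ((e s (k.2.2.2.2 s m).1 (k.2.2.2.2 s m).2.1).2 m)

theorem tw_strict (h : IsPer2 U P) (hs : s ∈ U) (ha : IsAlgebraic ℚ (s 0)) :
    {X : Matrix (Fin 2 × Fin 2) (Fin 2 × Fin 2) ℂ | X.det ≠ 0 ∧
      (fun a => X a.1 a.2) ∈ Cl {fun a : (Fin 2 × Fin 2) × Fin 2 × Fin 2 => P s a.1 a.2}} ⊂
    {X | X.det ≠ 0 ∧ pt s X ∈ Cl ((fun t => pt t (P t)) '' U)} := by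
  obtain ⟨r, Q, w, A, hU, k⟩ := loc2 h hs
  have m := mem_ball_self (x := s) k.1
  obtain ⟨s0, -, e1, e2⟩ := k.2.2.2.2 s m
  have w0 : w s ≠ 0 := fun e => s0 (by rw [← e1, e, zero_pow two_ne_zero])
  have d := tw_det (neg_ne_zero.2 w0) (k.2.1 s m).1 k.2.2.2.1
  refine ⟨fun X hX => ⟨hX.1, cl_sub hs ha hX.2⟩, fun hh => ?_⟩
  have := (hh ⟨d, str_in k hU⟩).2
  rw [e2] at this
  exact str_out w0 (IsAlgebraic.of_pow two_pos (e1 ▸ ha)) (k.2.1 s m).1 k.2.2.2.1 this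

theorem tw_inf : {m : ℕ | 2 ≤ m ∧ ∀ U P, IsPer2 U P → (fun _ => (m : ℂ)) ∈ U →
    HodgeGen (fun t => hol (P t)) fun _ => m}.Infinite :=
  inf_nq.mono fun m hm => ⟨hm.1, fun U P h hs => by
    obtain ⟨r, Q, w, A, -, k⟩ := loc2 h hs
    have b := mem_ball_self (x := fun _ : Fin 1 => (m : ℂ)) k.1
    have c := (convex_ball (fun _ : Fin 1 => (m : ℂ)) r).isPreconnected
    have R := fun t ht => leg_ri isOpen_ball c k.2.1 ht (k.2.2.2.2 t ht).1 (k.2.2.2.2 t ht).2.1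
    exact hodge2 k R fun g g0 => mt_gl2 (R _ b) (hm.2 _ Q isOpen_ball c k.2.1 b) g0⟩

end

end Pool.Agent.Lib.MP_5591bc_ag.Tw
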