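import Pool.Agent.Lib.MP_5591bc_ag.A.End
import Pool.Agent.Lib.MP_5591bc_ag.B.Chev

/-! The monodromy moves the ratio of the periods of a non isotrivial family of elliptic curves. -/

namespace Pool.Agent.Lib.MP_5591bc_ag.Tw

open Matrix Filter Topology Metric G R W M E Z J A B

noncomputable section

theorem mov_eig {J : Matrix (Fin 2) (Fin 2) ℝ} (hJ : Jᵀ = -J) {Ω Ω' : Matrix (Fin 1) (Fin 2) ℂ}
    (h : Rie J Ω) (h' : Rie J Ω') {c : ℂ}
    (e : Ω * ((cx (Cs J Ω))⁻¹ * cx (Cs J Ω')) = c • Ω) : ∃ A : Matrix (Fin 1) (Fin 1) ℂ,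
      Ω' = A * Ω := by
  have hc : Fintype.card (Fin 2) = 2 * Fintype.card (Fin 1) := rfl
  have e1 : (cx (Cs J Ω))⁻¹ = -cx (Cs J Ω) := inv_eq_right_inv (by
    rw [Matrix.mul_neg, ← cxa_mul, cx_sq hJ hc h, cxa_neg, cxa_one, neg_neg])
  have e2 : Ω * cx (Cs J Ω') = (Complex.I * c) • Ω := by
    rw [e1, ← Matrix.mul_assoc, Matrix.mul_neg, cx_eig h, Matrix.neg_mul, Matrix.smul_mul] at e
    rw [mul_smul, ← e, smul_neg, smul_smul, Complex.I_mul_I, neg_smul, one_smul, neg_neg]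
  have e3 : ((Complex.I * c) ^ 2 + 1) • Ω = 0 := by
    have : Ω * cx (Cs J Ω') * cx (Cs J Ω') = -Ω := by
      rw [Matrix.mul_assoc, ← cxa_mul, cx_sq hJ hc h', cxa_neg, cxa_one, Matrix.mul_neg,
        Matrix.mul_one]
    rw [e2, Matrix.smul_mul, e2, smul_smul] at this
    rw [add_smul, one_smul, sq, this, neg_add_cancel]
  have e4 : (c - 1) * (c + 1) = 0 := by
    have := (smul_eq_zero.1 e3).resolve_right fun k => by
      have := h.cxa_oa
      rw [k, Matrix.zero_mul] at this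
      exact zero_ne_one this
    linear_combination (-1 : ℂ) * this + c ^ 2 * Complex.I_sq
  rcases mul_eq_zero.1 e4 with k | k
  · refine cx_row hJ hc h h' (cx_ext hJ hc h ?_)
    rw [e2, cx_eig h, sub_eq_zero.1 k, mul_one]
  · have k1 : J * Sm J Ω' = J * -Sm J Ω := by
      rw [Matrix.mul_neg]
      refine cx_ext hJ hc h (e2.trans ?_)
      rw [cxa_neg, Matrix.mul_neg, eq_neg_of_add_eq_zero_left k, mul_neg, mul_one, neg_smul]
      exact congrArg _ (cx_eig h).symm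
    have k2 := (cx_pd hJ hc h').diag_pos (i := 0)
    rw [((isUnit_iff_isUnit_det _).2 (cx_det hJ hc h).isUnit).mul_left_cancel k1] at k2
    exact absurd (cx_pd hJ hc h).diag_pos (not_lt.2 (neg_pos.1 k2).le)

theorem not_good {σ K : Type} [Fintype σ] [DecidableEq σ] [Nonempty σ] [Field K] [Algebra K ℂ]
    {T : MvPolynomial σ K} {B : σ → Matrix (Fin 2) (Fin 2) (MvPolynomial σ K)}
    {U : Set (σ → ℂ)} {P : (σ → ℂ) → Matrix (Fin 2) (Fin 2) ℂ} (ho : IsOpen U)
    (hU : IsPreconnected U) (hP : FundM T B U P) {r : Fin 1 → Fin 2} (hr : r 0 = 0)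
    {J : Matrix (Fin 2) (Fin 2) ℝ} (hp : Pol T U P r J) {E : Type*} [Field E] [Algebra E ℂ]
    {x : σ → E} {s : σ → ℂ} (hx : ∀ l, algebraMap E ℂ (x l) = s l) (hs : s ∈ U)
    (hT : MvPolynomial.aeval s T ≠ 0) (hI : Iso (fun t => (P t).submatrix r id) s) {τ : E}
    (hτ : P s 0 1 = algebraMap E ℂ τ * P s 0 0) : ¬ GoodV U P 1 x := by
  intro hg
  obtain rfl : (fun l => algebraMap E ℂ (x l)) = s := funext hx
  obtain ⟨H, h1, h2⟩ := hg (MvPolynomial.X (0, 1) - MvPolynomial.C τ * MvPolynomial.X (0, 0))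
    ((MvPolynomial.totalDegree_sub _ _).trans (max_le (MvPolynomial.totalDegree_X _).le
      ((MvPolynomial.totalDegree_mul _ _).trans (by simp)))) (by simp [hτ])
  generalize hx' : (fun l => algebraMap E ℂ (x l)) = s at *
  have hy : AnalyticAt ℂ (fun (u : ℂ) l => s l + u) 0 :=
    analyticAt_pi_iff.2 fun l => analyticAt_const.fun_add analyticAt_id
  have y0 : (fun l => s l + (0 : ℂ)) = s := by simp
  obtain ⟨Z, Γ, 𝓑, D, hΓ, hF, D0, hb, hz⟩ := br_fam ho hp .base ho hU hP hy (by rwa [y0])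
    (by rwa [y0]) fun l => ⟨MvPolynomial.X 1 - MvPolynomial.X 0 - MvPolynomial.C (s l), fun e => by
      simpa using congrArg (MvPolynomial.eval ![0, s l + 1]) e, .of_forall fun u => by simp⟩
  simp only [end_sub, y0] at hb hz
  have hc : Fintype.card (Fin 2) = 2 * Fintype.card (Fin 1) := rfl
  have q1 : qr (1 : Matrix (Fin 2) (Fin 2) ℚ) = 1 := Matrix.map_one _ Rat.cast_zero Rat.cast_one
  have b1 : (D, fun u => (P fun l => s l + u).submatrix r id) ∈ 𝓑 := by
    simpa only [q1, cxa_one, Matrix.mul_one] using hb 1 hΓ.one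
  have e : ∀ (u : ℂ) (t : σ → ℂ) (Y : Matrix (Fin 2) (Fin 2) ℂ), MvPolynomial.eval
      (Sum.elim (fun o : Option σ => o.elim u t) fun a => Y a.1 a.2) (MvPolynomial.rename
        (Sum.map some id) (H.map (algebraMap E ℂ))) =
      MvPolynomial.aeval (Sum.elim t fun a => Y a.1 a.2) H := fun u t Y => by
    rw [MvPolynomial.eval_rename, MvPolynomial.eval_map, MvPolynomial.aeval_def]
    congr 1
    ext (l | a) <;> rfl
  have t := hy.continuousAt.tendsto
  rw [y0] at t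
  have k : ∀ γ ∈ Γ, (P s * qc γ) 0 1 - algebraMap E ℂ τ * (P s * qc γ) 0 0 = 0 := fun γ hγ => by
    have := hz _ ((t.eventually (ho.mem_nhds hs)).mono fun u hu =>
      (e _ _ _).trans (h1 _ _ .base _ hu)) γ hγ
    have e2 := congrArg (MvPolynomial.aeval fun a : Fin 2 × Fin 2 => (P s * qc γ) a.1 a.2) h2
    rw [← AlgHom.comp_apply, MvPolynomial.comp_aeval] at e2
    rw [e] at this
    refine Eq.trans ?_ (e2.symm.trans (Eq.trans ?_ this))
    · simp
    · congr 2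
      ext (l | a) <;> simp [← hx']
  have t' : Tendsto (fun (u : ℂ) l => s l + u) (𝓝[≠] 0) (𝓝[≠] s) :=
    tendsto_nhdsWithin_iff.2 ⟨t.mono_left nhdsWithin_le_nhds, eventually_nhdsWithin_of_forall
      fun u hu e => hu (by simpa using congrFun e (Classical.arbitrary σ))⟩
  obtain ⟨u, u1, u2⟩ := ((t'.eventually hI).and
    (nhdsWithin_le_nhds ((hF.op _ b1).mem_nhds D0))).exists
  have r0 := hF.rie _ b1 0 D0
  have r1 := hF.rie _ b1 u u2
  simp only [y0] at r0 r1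
  have dt : ∀ {Ω : Matrix (Fin 1) (Fin 2) ℂ}, Rie J Ω → (Cs J Ω).det ≠ 0 := fun h =>
    det_ne_zero_of_right_inverse (B := -_) (by rw [Matrix.mul_neg, cx_sq hp.1 hc h, neg_neg])
  have k1 := chev_two hΓ (dt r0) (dt r1) fun a δ v hv => by
    obtain ⟨m, d, hρ⟩ := rep_rW (ν := Fin 2) a δ
    obtain ⟨w, hw⟩ := fix hp.1 hc hF hρ (e := v) (by rintro _ ⟨γ, h, rfl⟩; exact hv γ h)
      Complex.I_ne_zero
    simpa [hz, A.hz] using (hw _ b1 u u2).trans (hw _ b1 0 D0).symm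
  have k2 : ∀ X ∈ Zc Γ, (P s).submatrix r id * X =
      ((P s * X) 0 0 / P s 0 0) • (P s).submatrix r id := fun X hX => by
    have p0 : P s 0 0 ≠ 0 := fun e0 => (hP s hs).1 (by rw [det_fin_two, hτ, e0]; ring)
    have k3 := hX (∑ a, MvPolynomial.C (P s 0 a) * MvPolynomial.X (a, 1) - MvPolynomial.C
      (algebraMap E ℂ τ) * ∑ a, MvPolynomial.C (P s 0 a) * MvPolynomial.X (a, 0)) fun γ hγ => by
        simpa [mul_apply] using k γ hγ
    ext i j
    obtain rfl : i = 0 := Subsingleton.elim _ _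
    have k4 : (P s * X) 0 1 = algebraMap E ℂ τ * (P s * X) 0 0 := by
      simpa [mul_apply, sub_eq_zero] using k3
    show (P s * X) (r 0) j = _ / _ * P s (r 0) j
    rw [hr, div_mul_eq_mul_div, eq_div_iff p0]
    revert j
    exact Fin.forall_fin_two.2 ⟨rfl, by rw [k4, hτ]; ring⟩
  exact u1 (mov_eig hp.1 r0 r1 (k2 _ k1))

end

end Pool.Agent.Lib.MP_5591bc_ag.Tw
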