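import Pool.Agent.Lib.MP_5591bc_ag.Pl.Grp

/-! The Mumford-Tate group of a power of an elliptic curve. -/

namespace Pool.Agent.Lib.MP_5591bc_ag.Tw

open Matrix A Pl
open scoped Kronecker

noncomputable section

variable {β ν : Type*} [Fintype β] [DecidableEq β] [Fintype ν] [DecidableEq ν] (e : ν ≃ β × Fin 2)

/-- the row `b` is `c b • (u, v)` in the block `b` -/
def hgO (c : β → ℂ) (u v : ℂ) : Matrix β ν ℂ :=
  of fun b j => if (e j).1 = b then c b * ![u, v] (e j).2 else 0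

/-- the block diagonal matrix with all blocks equal to `g` -/
def hgD {R : Type*} [CommRing R] (g : Matrix (Fin 2) (Fin 2) R) : Matrix ν ν R :=
  ((1 : Matrix β β R) ⊗ₖ g).submatrix e e

omit [Fintype β] [Fintype ν] [DecidableEq ν] in
lemma hg_app {R : Type*} [CommRing R] (g : Matrix (Fin 2) (Fin 2) R) (i j : ν) :
    hgD e g i j = if (e i).1 = (e j).1 then g (e i).2 (e j).2 else 0 := by
  simp [hgD, one_apply]

omit [DecidableEq ν] in
lemma hg_mul (g h : Matrix (Fin 2) (Fin 2) ℂ) : hgD e (g * h) = hgD e g * hgD e h := by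
  rw [hgD, hgD, hgD, submatrix_mul_equiv, ← mul_kronecker_mul, mul_one]

omit [Fintype β] [Fintype ν] in
lemma hg_one : hgD e (1 : Matrix (Fin 2) (Fin 2) ℂ) = 1 := by
  rw [hgD, one_kronecker_one, submatrix_one_equiv]

lemma hg_det (g : Matrix (Fin 2) (Fin 2) ℂ) : (hgD e g).det = g.det ^ Fintype.card β := by
  rw [hgD, det_submatrix_equiv_self, det_kronecker, det_one, one_pow, one_mul]

lemma hg_inv {g : Matrix (Fin 2) (Fin 2) ℂ} (g0 : g.det ≠ 0) : (hgD e g)⁻¹ = hgD e g⁻¹ :=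
  inv_eq_right_inv (by rw [← hg_mul, mul_nonsing_inv _ g0.isUnit, hg_one])

omit [Fintype β] [Fintype ν] [DecidableEq ν] in
lemma hg_star (c : β → ℂ) (u v : ℂ) :
    (hgO e c u v).map star = hgO e (star c) (star u) (star v) := by
  ext b j
  simp only [hgO, map_apply, of_apply]
  split_ifs
  · generalize (e j).2 = p
    fin_cases p <;> simp
  · simp

omit [DecidableEq ν] in
lemma hg_row (c : β → ℂ) (u v : ℂ) (h : Matrix ν ν ℂ) (b : β) (j : ν) :
    (hgO e c u v * h) b j = c b * (u * h (e.symm (b, 0)) j + v * h (e.symm (b, 1)) j) := by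
  rw [Matrix.mul_apply, ← e.symm.sum_comp, Fintype.sum_prod_type, Finset.sum_eq_single b]
  · simp [hgO]
    ring
  · intro a _ ha
    simp [hgO, ha]
  · simp

omit [DecidableEq ν] in
lemma hg_eig {c : β → ℂ} {u v z : ℂ} {k : Matrix (Fin 2) (Fin 2) ℂ}
    (h : ![u, v] ᵥ* k = z • ![u, v]) : hgO e c u v * hgD e k = z • hgO e c u v := by
  ext b j
  have := congrFun h (e j).2
  simp only [vecMul, dotProduct, Fin.sum_univ_two, cons_val_zero, cons_val_one, Pi.smul_apply,
    smul_eq_mul] at this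
  rw [hg_row, hg_app, hg_app]
  simp only [Equiv.apply_symm_apply, Matrix.smul_apply, hgO, of_apply, smul_eq_mul, @eq_comm _ b]
  split_ifs
  · rw [this]
    ring
  · simp

variable [Nonempty β]

/-- the Mumford-Tate group lies in the diagonal -/
theorem hg_sub {c : β → ℂ} (hc : ∀ b, c b ≠ 0) {u v : ℂ} (h0 : u * star v - v * star u ≠ 0)
    {a : Matrix ν ν ℂ} (ha : a ∈ MTG (hgO e c u v)) : ∃ g, g.det ≠ 0 ∧ a = hgD e g := by
  obtain ⟨b₀⟩ := ‹Nonempty β›
  have d0 : ∀ g : Matrix (Fin 2) (Fin 2) ℂ, (hgD e g).det ≠ 0 → g.det ≠ 0 := fun g h g0 =>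
    h (by rw [hg_det, g0, zero_pow Fintype.card_ne_zero])
  have bl : ∀ a : Matrix ν ν ℂ, (∃ g, g.det ≠ 0 ∧ a = hgD e g) ↔ a.det ≠ 0 ∧
      a = hgD e (a.submatrix (fun p => e.symm (b₀, p)) fun p => e.symm (b₀, p)) := fun a => by
    refine ⟨?_, fun h => ⟨_, d0 _ (h.2 ▸ h.1), h.2⟩⟩
    rintro ⟨g, g0, rfl⟩
    refine ⟨by rw [hg_det]; exact pow_ne_zero _ g0, congrArg _ ?_⟩
    ext p q
    simp [hg_app]
  refine ha {a | ∃ g, g.det ≠ 0 ∧ a = hgD e g} ⟨⟨⟨Set.range fun x : ν × ν => MvPolynomial.X x -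
    hgD e ((mvPolynomialX ν ν ℚ).submatrix (fun p => e.symm (b₀, p)) fun p => e.symm (b₀, p))
      x.1 x.2, Set.ext fun a => ?_⟩, ⟨1, by simp, (hg_one e).symm⟩, ?_⟩, fun z h z0 h1 h2 => ?_⟩
  · rw [Set.mem_ofPred_eq, bl]
    simp only [Set.mem_ofPred_eq, Set.forall_mem_range, ← Matrix.ext_iff, Prod.forall]
    refine and_congr_right fun _ => forall₂_congr fun i j => ?_
    rw [map_sub, sub_eq_zero, hg_app, hg_app]
    split_ifs <;> simp [mvPolynomialX]
  · rintro _ ⟨g, g0, rfl⟩ _ ⟨h, k0, rfl⟩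
    exact ⟨g * h⁻¹, by simp [g0, k0], by rw [hg_inv e k0, hg_mul]⟩
  · obtain ⟨d, d1⟩ : ∃ d : ℂ, d * (u * star v - v * star u) = 1 := ⟨_, inv_mul_cancel₀ h0⟩
    rw [hg_star] at h2
    refine ⟨d • !![z * u * star v - star z * star u * v, (z - star z) * v * star v;
      (star z - z) * u * star u, star z * u * star v - z * star u * v], ?_, ?_⟩
    · have : z * star z ≠ 0 := mul_ne_zero z0 (star_ne_zero.2 z0)
      rw [det_smul, det_fin_two_of]
      convert this using 1
      simp only [Fintype.card_fin]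
      linear_combination (z * star z * (d * (u * star v - v * star u) + 1)) * d1
    · ext i j
      obtain ⟨⟨b, p⟩, rfl⟩ := e.symm.surjective i
      obtain ⟨⟨b', q⟩, rfl⟩ := e.symm.surjective j
      have k1 := congrFun (congrFun h1 b) (e.symm (b', q))
      have k2 := congrFun (congrFun h2 b) (e.symm (b', q))
      rw [hg_row] at k1 k2
      simp only [Matrix.smul_apply, hgO, of_apply, Equiv.apply_symm_apply, smul_eq_mul,
        @eq_comm _ b'] at k1 k2
      have c1 := hc b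
      have c2 : star c b ≠ 0 := star_ne_zero.2 c1
      rw [hg_app]
      simp only [Equiv.apply_symm_apply]
      split_ifs at k1 k2 ⊢
      · rw [mul_left_comm] at k1 k2
        replace k1 := mul_left_cancel₀ c1 k1
        replace k2 := mul_left_cancel₀ c2 k2
        fin_cases p <;> fin_cases q <;> simp [-Complex.star_def, -RCLike.star_def] at k1 k2 ⊢
        · linear_combination d * star v * k1 - d * v * k2 - h _ _ * d1
        · linear_combination d * star v * k1 - d * v * k2 - h _ _ * d1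
        · linear_combination -d * star u * k1 + d * u * k2 - h _ _ * d1
        · linear_combination -d * star u * k1 + d * u * k2 - h _ _ * d1
      · rw [mul_zero, mul_eq_zero_iff_left c1] at k1
        rw [mul_zero, mul_eq_zero_iff_left c2] at k2
        fin_cases p <;> simp only [Fin.zero_eta, Fin.mk_one]
        · linear_combination d * star v * k1 - d * v * k2 - h _ _ * d1
        · linear_combination -d * star u * k1 + d * u * k2 - h _ _ * d1

/-- it contains the diagonal image of the Mumford-Tate group of the curve -/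
theorem hg_sup (c : β → ℂ) {Ω : Matrix (Fin 1) (Fin 2) ℂ} {g : Matrix (Fin 2) (Fin 2) ℂ}
    (hg : g ∈ MTG Ω) : hgD e g ∈ MTG (hgO e c (Ω 0 0) (Ω 0 1)) := by
  rintro G ⟨hG, h⟩
  have d0 : ∀ g : Matrix (Fin 2) (Fin 2) ℂ, (hgD e g).det ≠ 0 ↔ g.det ≠ 0 := fun g => by
    rw [hg_det]
    exact pow_ne_zero_iff Fintype.card_ne_zero
  have r : ∀ {Ω : Matrix (Fin 1) (Fin 2) ℂ} {k : Matrix (Fin 2) (Fin 2) ℂ} {z : ℂ},
      Ω * k = z • Ω → ![Ω 0 0, Ω 0 1] ᵥ* k = z • ![Ω 0 0, Ω 0 1] := fun {Ω k z} h => by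
    funext j
    have := congrFun (congrFun h 0) j
    fin_cases j <;> simpa [Matrix.mul_apply, vecMul, dotProduct] using this
  refine hg {g | hgD e g ∈ G} ⟨⟨?_, ?_, fun a ha b hb => ?_⟩, fun z k z0 k1 k2 =>
    h z _ z0 (hg_eig e (r k1)) (by rw [hg_star]; exact hg_eig e (r k2))⟩
  · obtain ⟨⟨E, rfl⟩, -⟩ := hG
    have key : ∀ (g : Matrix (Fin 2) (Fin 2) ℂ) (p : MvPolynomial (ν × ν) ℚ),
        MvPolynomial.aeval (fun a : Fin 2 × Fin 2 => g a.1 a.2) (MvPolynomial.bind₁
          (fun a : ν × ν => hgD e (mvPolynomialX (Fin 2) (Fin 2) ℚ) a.1 a.2) p) =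
        MvPolynomial.aeval (fun a : ν × ν => hgD e g a.1 a.2) p := fun g p => by
      rw [MvPolynomial.aeval_bind₁]
      congr 2
      funext a
      rw [hg_app, hg_app]
      split_ifs <;> simp [mvPolynomialX]
    refine ⟨MvPolynomial.bind₁
      (fun a : ν × ν => hgD e (mvPolynomialX (Fin 2) (Fin 2) ℚ) a.1 a.2) '' E, Set.ext fun g => ?_⟩
    simp only [Set.mem_ofPred_eq, d0, Set.forall_mem_image, key]
  · show _ ∈ G
    rw [hg_one]
    exact hG.2.1
  · show _ ∈ G
    rw [hg_mul, ← hg_inv e ((d0 b).1 (qg_det hG hb))]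
    exact hG.2.2 _ ha _ hb

end

end Pool.Agent.Lib.MP_5591bc_ag.Tw
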