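import Pool.Agent.Lib.MP_5591bc_ag.Tw.Set
import Pool.Agent.Lib.MP_5591bc_ag.Tw.Pow

/-! The Mumford-Tate group of the product. -/

namespace Pool.Agent.Lib.MP_5591bc_ag.Tw

open Matrix Filter Topology Metric M F A Pl
open scoped Kronecker

noncomputable section

variable {U : Set (Fin 1 → ℂ)} {P : (Fin 1 → ℂ) → Matrix (Fin 2 × Fin 2) (Fin 2 × Fin 2) ℂ}
  {s t : Fin 1 → ℂ} {r : ℝ} {Q : (Fin 1 → ℂ) → Matrix (Fin 2) (Fin 2) ℂ} {w : (Fin 1 → ℂ) → ℂ}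
  {A : Matrix (Fin 2 × Fin 2) (Fin 2 × Fin 2) ℚ} {M g : Matrix (Fin 2) (Fin 2) ℂ} {v : ℂ}

theorem mt_hol (v : ℂ) (M : Matrix (Fin 2) (Fin 2) ℂ) :
    hol (tw v M) = hgO (Equiv.refl _) (fun a : Fin 2 => v ^ (a : ℕ)) (M 0 0) (M 0 1) := by
  ext a ⟨b, j⟩
  fin_cases a <;> fin_cases b <;> fin_cases j <;> simp [hol, tw, hgO]

theorem mt_sub (v0 : v ≠ 0) (h : RI M) :
    MTG (hol (tw v M)) ⊆ {X | ∃ g : Matrix (Fin 2) (Fin 2) ℂ, g.det ≠ 0 ∧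
      X = (1 : Matrix (Fin 2) (Fin 2) ℂ) ⊗ₖ g} := fun X hX => by
  rw [mt_hol] at hX
  refine hg_sub _ (fun b => pow_ne_zero _ v0) (fun e => h ?_) hX
  have := congrArg Complex.im e
  simp at this ⊢
  linarith

theorem mt_sup (hg : g ∈ MTG (row0 M)) :
    (1 : Matrix (Fin 2) (Fin 2) ℂ) ⊗ₖ g ∈ MTG (hol (tw v M)) := by
  rw [mt_hol]
  have k := hg_sup (Equiv.refl (Fin 2 × Fin 2)) (fun a : Fin 2 => v ^ (a : ℕ)) hg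
  have e : hgD (Equiv.refl (Fin 2 × Fin 2)) g = (1 : Matrix (Fin 2) (Fin 2) ℂ) ⊗ₖ g := rfl
  have e0 : row0 M 0 0 = M 0 0 := rfl
  have e1 : row0 M 0 1 = M 0 1 := rfl
  rwa [e, e0, e1] at k

end

end Pool.Agent.Lib.MP_5591bc_ag.Tw
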