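import Pool.Agent.Lib.MP_5591bc_ag.Tw.Leg
import Pool.Agent.Lib.MP_5591bc_ag.Tw.Mov

/-! Quadratic ratios violate the degree one property. -/

namespace Pool.Agent.Lib.MP_5591bc_ag.Tw

open Matrix Filter Topology Metric M F A Pl
open scoped Kronecker IntermediateField

noncomputable section

variable {U : Set (Fin 1 → ℂ)} {P : (Fin 1 → ℂ) → Matrix (Fin 2 × Fin 2) (Fin 2 × Fin 2) ℂ}
  {s t : Fin 1 → ℂ} {r : ℝ} {Q : (Fin 1 → ℂ) → Matrix (Fin 2) (Fin 2) ℂ} {w : (Fin 1 → ℂ) → ℂ}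
  {A : Matrix (Fin 2 × Fin 2) (Fin 2 × Fin 2) ℚ} {M g : Matrix (Fin 2) (Fin 2) ℂ} {v : ℂ}

theorem not_quad {τ : ℂ} {a b c : ℚ} (h : a ≠ 0 ∨ b ≠ 0 ∨ c ≠ 0)
    (e : (a : ℂ) * τ ^ 2 + b * τ + c = 0) :
    FiniteDimensional ℚ ℚ⟮τ⟯ ∧ Module.finrank ℚ ℚ⟮τ⟯ ≤ 2 := by
  have p0 : (Polynomial.C a * Polynomial.X ^ 2 + Polynomial.C b * Polynomial.X + Polynomial.C c :
      Polynomial ℚ) ≠ 0 := fun k => by
    have k2 := congrArg (·.coeff 2) k
    have k1 := congrArg (·.coeff 1) k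
    have k0 := congrArg (·.coeff 0) k
    simp [Polynomial.coeff_X, Polynomial.coeff_C] at k2 k1 k0
    tauto
  have p1 : Polynomial.aeval τ (Polynomial.C a * Polynomial.X ^ 2 + Polynomial.C b * Polynomial.X +
      Polynomial.C c : Polynomial ℚ) = 0 := by simpa using e
  have hi : IsIntegral ℚ τ := (show IsAlgebraic ℚ τ from ⟨_, p0, p1⟩).isIntegral
  refine ⟨IntermediateField.adjoin.finiteDimensional hi, ?_⟩
  rw [IntermediateField.adjoin.finrank hi]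
  exact (Polynomial.natDegree_le_of_dvd (minpoly.dvd ℚ τ p1) p0).trans
    Polynomial.natDegree_quadratic_le

theorem leg_not (ho : IsOpen U) (hc : IsPreconnected U) (hQ : IsPerM leg U Q) {m : ℕ} (hm : 2 ≤ m)
    (ht : (fun _ => (m : ℂ)) ∈ U) (hq : Qd (Q fun _ => m)) :
    ∃ (E : IntermediateField ℚ ℂ) (x : Fin 1 → E), (∀ j, (x j : ℂ) = m) ∧
      FiniteDimensional ℚ E ∧ Module.finrank ℚ E ≤ 2 ∧ ¬ GoodV U Q 1 x := by
  have m0 : (m : ℂ) ≠ 0 := Nat.cast_ne_zero.2 (by omega)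
  have m1 : (m : ℂ) ≠ 1 := by exact_mod_cast (by omega : m ≠ 1)
  obtain ⟨a, b, c, h, e⟩ := hq
  have u0 : Q (fun _ => m) 0 0 ≠ 0 := fun k => leg_ri ho hc hQ ht m0 m1 (by
    rw [k, zero_mul, Complex.zero_im])
  obtain ⟨T, W, J, hF, hp, hT⟩ := leg_pol ho hc hQ ht
  obtain ⟨q1, q2⟩ := not_quad (τ := Q (fun _ => m) 0 1 / Q (fun _ => m) 0 0) h (by
    field_simp
    linear_combination e)
  refine ⟨_, fun _ => m, fun _ => rfl, q1, q2, not_good ho hc hF rfl hp (fun _ => map_natCast _ m)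
    ht (hT _ m0 m1).1 ((hT _ m0 m1).2 ht) (τ := IntermediateField.AdjoinSimple.gen ℚ _) ?_⟩
  rw [IntermediateField.AdjoinSimple.algebraMap_gen, div_mul_cancel₀ _ u0]

end

end Pool.Agent.Lib.MP_5591bc_ag.Tw
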