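import Pool.Agent.Lib.MP_5591bc_ag.Tw.Defs
import Pool.Agent.Lib.MP_5591bc_ag.Pl.One

/-! Notation for the twisted product. -/

namespace Pool.Agent.Lib.MP_5591bc_ag.Tw

open Matrix Polynomial A
open scoped Kronecker

noncomputable section

/-- the polynomial `x (x - 1)` -/
def f2 : ℚ[X] := X * (X - 1)

/-- the Legendre cubic in the form used by the kit -/
def leg : (Fin 1 → ℂ) → ℂ → ℂ := fun t z => aeval z f2 * ∏ l, (z - t l)

theorem leg_eq (t : Fin 1 → ℂ) (z : ℂ) : leg t z = z * (z - 1) * (z - t 0) := by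
  simp [leg, f2]

theorem f2_sep : f2.Separable := by
  refine separable_X.mul (by simpa using separable_X_sub_C (x := (1 : ℚ))) ⟨1, -1, by ring⟩

theorem f2_deg : f2.natDegree = 2 := by
  unfold f2; compute_degree!

theorem f2_ne {z : ℂ} (h0 : z ≠ 0) (h1 : z ≠ 1) : aeval z f2 ≠ 0 := by
  simpa [f2, sub_eq_zero] using ⟨h0, h1⟩

/-- the block matrix `diag (M, w M)` -/
def tw (w : ℂ) (M : Matrix (Fin 2) (Fin 2) ℂ) : Matrix (Fin 2 × Fin 2) (Fin 2 × Fin 2) ℂ :=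
  diagonal (fun a : Fin 2 => w ^ (a : ℕ)) ⊗ₖ M

/-- the first row -/
def row0 (M : Matrix (Fin 2) (Fin 2) ℂ) : Matrix (Fin 1) (Fin 2) ℂ := M.submatrix (fun _ => 0) id

/-- the two entries of the first row are independent over the reals -/
def RI (M : Matrix (Fin 2) (Fin 2) ℂ) : Prop := (M 0 0 * star (M 0 1)).im ≠ 0

/-- the ratio of the two entries of the first row is a quadratic number -/
def Qd (M : Matrix (Fin 2) (Fin 2) ℂ) : Prop :=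
  ∃ a b c : ℚ, (a ≠ 0 ∨ b ≠ 0 ∨ c ≠ 0) ∧
    (a : ℂ) * M 0 1 ^ 2 + b * (M 0 0 * M 0 1) + c * M 0 0 ^ 2 = 0

/-- local form of a period matrix of the product -/
def Loc2 (P : (Fin 1 → ℂ) → Matrix (Fin 2 × Fin 2) (Fin 2 × Fin 2) ℂ) (s : Fin 1 → ℂ) (r : ℝ)
    (Q : (Fin 1 → ℂ) → Matrix (Fin 2) (Fin 2) ℂ) (w : (Fin 1 → ℂ) → ℂ)
    (A : Matrix (Fin 2 × Fin 2) (Fin 2 × Fin 2) ℚ) : Prop :=
  0 < r ∧ F.IsPerM leg (Metric.ball s r) Q ∧ ContinuousOn w (Metric.ball s r) ∧ A.det ≠ 0 ∧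
    ∀ t ∈ Metric.ball s r, t 0 ≠ 0 ∧ t 0 ≠ 1 ∧ w t ^ 2 = t 0 ∧ P t = tw (w t) (Q t) * qc A

end

end Pool.Agent.Lib.MP_5591bc_ag.Tw
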